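import Pool.Agent.Y603.MP.Defs
import Pool.Agent.W856.Corner7

/-!
Joint probabilistic polynomials for the nodes of a circuit.
-/

set_option autoImplicit false

namespace Pool.Agent.Y603.MP

open Finset Pool.Agent.W856.Corner

variable {n p : ℕ} [Fact p.Prime] {ι : Type}

/-- The test that all the random linear combinations vanish. -/
def zs {t : ℕ} (J : Finset ι) (w : Fin t → ι → ZMod p) (c : ι → V n → Bool) (y : V n) : Bool :=
  decide (∀ τ : Fin t, ∑ j ∈ J, w τ j * bi (ZMod p) (c j y) = 0)

lemma zs_LB {t D : ℕ} (J : Finset ι) (w : Fin t → ι → ZMod p) (c : ι → V n → Bool)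
    (hc : ∀ j ∈ J, LB (ZMod p) D (c j)) : LB (ZMod p) (t * ((p - 1) * D)) (zs J w c) := by
  unfold LB
  have h1 : (fun y => bi (ZMod p) (zs J w c y)) =
      ∏ τ : Fin t, (1 - (∑ j ∈ J, w τ j • fun y => bi (ZMod p) (c j y)) ^ (p - 1)) := by
    funext y
    rw [Finset.prod_apply]
    have h2 : ∀ τ : Fin t, (1 - (∑ j ∈ J, w τ j • fun y => bi (ZMod p) (c j y)) ^ (p - 1) :
        V n → ZMod p) y = if ∑ j ∈ J, w τ j * bi (ZMod p) (c j y) = 0 then (1 : ZMod p) else 0 := by
      intro τ
      rw [fermat, Pi.sub_apply, Pi.pow_apply, Pi.one_apply, Finset.sum_apply]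
      simp only [Pi.smul_apply, smul_eq_mul]
    rw [Finset.prod_congr rfl fun τ _ => h2 τ]
    by_cases h : ∀ τ : Fin t, ∑ j ∈ J, w τ j * bi (ZMod p) (c j y) = 0
    · have e : zs J w c y = true := by unfold zs; simpa using h
      rw [e, Finset.prod_eq_one fun τ _ => if_pos (h τ)]
      rfl
    · have e : zs J w c y = false := by unfold zs; simpa using h
      push Not at h
      obtain ⟨τ, hτ⟩ := h
      rw [e, Finset.prod_eq_zero (Finset.mem_univ τ) (if_neg hτ)]
      rfl
  rw [h1]
  have h3 := LK_prod (K := ZMod p) (n := n) (Finset.univ : Finset (Fin t)) (fun _ => (p - 1) * D)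
    (fun τ => 1 - (∑ j ∈ J, w τ j • fun y => bi (ZMod p) (c j y)) ^ (p - 1)) (fun τ _ => by
      refine Submodule.sub_mem _ (LK_one _) (LK_pow _ ?_)
      exact Submodule.sum_mem _ fun j hj => Submodule.smul_mem _ _ (hc j hj))
  simpa using h3

lemma md_LB {D : ℕ} (J : Finset ι) (r : ZMod p) (c : ι → V n → Bool)
    (hc : ∀ j ∈ J, LB (ZMod p) D (c j)) :
    LB (ZMod p) ((p - 1) * D)
      (fun y => decide (((J.filter fun j => c j y = true).card : ZMod p) = r)) := by
  unfold LB
  have h1 : (fun y => bi (ZMod p) (decide (((J.filter fun j => c j y = true).card : ZMod p) = r))) =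
      (1 - (∑ j ∈ J, (fun y => bi (ZMod p) (c j y)) - fun _ : V n => r) ^ (p - 1)) := by
    funext y
    rw [Pi.sub_apply, Pi.pow_apply, Pi.one_apply, Pi.sub_apply, Finset.sum_apply, ← fermat]
    have h2 : ∑ j ∈ J, bi (ZMod p) (c j y) = ((J.filter fun j => c j y = true).card : ZMod p) := by
      unfold bi
      rw [Finset.sum_boole]
    rw [h2]
    unfold bi
    by_cases h3 : ((J.filter fun j => c j y = true).card : ZMod p) = r
    · rw [if_pos (by simpa using h3), if_pos (sub_eq_zero.2 h3)]
    · rw [if_neg (by simpa using h3), if_neg (fun h => h3 (sub_eq_zero.1 h))]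
  rw [h1]
  refine Submodule.sub_mem _ (LK_one _) (LK_pow _ (Submodule.sub_mem _ ?_ (LK_const _ _)))
  exact Submodule.sum_mem _ fun j hj => hc j hj

/-- A function of few functions of low degree has low degree. -/
lemma small_LB [DecidableEq ι] {D : ℕ} (J : Finset ι) (c : ι → V n → Bool)
    (hc : ∀ j ∈ J, LB (ZMod p) D (c j)) (F : Finset ι → Bool) :
    LB (ZMod p) (J.card * D) (fun y => F (J.filter fun j => c j y = true)) := by
  unfold LB
  have h : (fun y => bi (ZMod p) (F (J.filter fun j => c j y = true))) = ∑ A ∈ J.powerset,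
      bi (ZMod p) (F A) • ((∏ j ∈ A, fun y => bi (ZMod p) (c j y)) *
        ∏ j ∈ J \ A, (1 - fun y => bi (ZMod p) (c j y))) := by
    funext y
    rw [Finset.sum_apply, Finset.sum_eq_single (J.filter fun j => c j y = true)]
    · rw [Pi.smul_apply, smul_eq_mul, Pi.mul_apply, Finset.prod_apply, Finset.prod_apply,
        Finset.prod_eq_one, Finset.prod_eq_one, mul_one, mul_one]
      · intro j hj
        rw [Finset.mem_sdiff, Finset.mem_filter] at hj
        have : c j y = false := by
          by_contra h
          exact hj.2 ⟨hj.1, by simpa using h⟩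
        simp [this, bi]
      · intro j hj
        rw [Finset.mem_filter] at hj
        simp [hj.2, bi]
    · intro A hA hne
      rw [Finset.mem_powerset] at hA
      rw [Pi.smul_apply, smul_eq_mul, Pi.mul_apply, Finset.prod_apply, Finset.prod_apply]
      by_cases h1 : ∀ j ∈ A, c j y = true
      · have h2 : ∃ j ∈ J \ A, c j y = true := by
          by_contra h3
          apply hne
          ext j
          rw [Finset.mem_filter]
          constructor
          · intro hj; exact ⟨hA hj, h1 j hj⟩
          · rintro ⟨hj, hj2⟩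
            by_contra hj3
            exact h3 ⟨j, Finset.mem_sdiff.2 ⟨hj, hj3⟩, hj2⟩
        obtain ⟨j, hj, hj2⟩ := h2
        rw [Finset.prod_eq_zero hj (by simp [hj2, bi]), mul_zero, mul_zero]
      · push Not at h1
        obtain ⟨j, hj, hj2⟩ := h1
        rw [Finset.prod_eq_zero hj (by
          have : c j y = false := by simpa using hj2
          simp [this, bi]), zero_mul, mul_zero]
    · intro h
      exact absurd (Finset.mem_powerset.2 (Finset.filter_subset _ _)) h
  rw [h]
  refine Submodule.sum_mem _ fun A hA => Submodule.smul_mem _ _ ?_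
  rw [Finset.mem_powerset] at hA
  have h1 := LK_prod (K := ZMod p) (n := n) A (fun _ => D) (fun j y => bi (ZMod p) (c j y))
    (fun j hj => hc j (hA hj))
  have h2 := LK_prod (K := ZMod p) (n := n) (J \ A) (fun _ => D)
    (fun j => 1 - fun y => bi (ZMod p) (c j y))
    (fun j hj => Submodule.sub_mem _ (LK_one _) (hc j (Finset.mem_sdiff.1 hj).1))
  have h3 := LK_mul h1 h2
  have e : ∑ _i ∈ A, D + ∑ _i ∈ J \ A, D = J.card * D := by
    simp only [Finset.sum_const, smul_eq_mul]
    rw [Finset.card_sdiff_of_subset hA, ← add_mul]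
    congr 1
    have := Finset.card_le_card hA
    omega
  rw [e] at h3
  exact h3

/-- a nonzero linear form vanishes on at most half of the space -/
lemma ker_half' [Fintype ι] [DecidableEq ι] (J : Finset ι) (e : ι → ZMod p)
    (h : ∃ j ∈ J, e j ≠ 0) :
    2 * (univ.filter fun r : ι → ZMod p => ∑ j ∈ J, r j * e j = 0).card ≤
      Fintype.card (ι → ZMod p) := by
  classical
  obtain ⟨j0, hj0, he⟩ := h
  have h1 : (univ.filter fun r : ι → ZMod p => ∑ j ∈ J, r j * e j = 0).card ≤
      (univ.filter fun r : ι → ZMod p => ¬ ∑ j ∈ J, r j * e j = 0).card := by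
    refine Finset.card_le_card_of_injOn (fun r => r + Pi.single j0 1) ?_ ?_
    · intro r hr
      rw [Finset.mem_coe, Finset.mem_filter] at hr ⊢
      refine ⟨Finset.mem_univ _, ?_⟩
      have h2 : ∑ j ∈ J, (r + Pi.single j0 1 : ι → ZMod p) j * e j =
          ∑ j ∈ J, r j * e j + e j0 := by
        simp only [Pi.add_apply, add_mul, Finset.sum_add_distrib]
        congr 1
        rw [Finset.sum_eq_single j0]
        · simp
        · intro j _ hj
          rw [Pi.single_eq_of_ne hj, zero_mul]
        · intro h; exact absurd hj0 h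
      show ¬ ∑ j ∈ J, (r + Pi.single j0 1 : ι → ZMod p) j * e j = 0
      rw [h2, hr.2, zero_add]
      exact he
    · intro r _ r' _ hrr
      exact add_right_cancel hrr
  have h2 := Finset.card_filter_add_card_filter_not (s := (univ : Finset (ι → ZMod p)))
    (fun r => ∑ j ∈ J, r j * e j = 0)
  rw [Finset.card_univ] at h2
  omega

variable {ν : Type}

/-- the random bits: for every node and every round a vector of coefficients -/
abbrev Om' (p : ℕ) (ν : Type) (t : ℕ) := ν × Fin t → (ν × Bool → ZMod p)

lemma bad_count' [Fintype ν] [DecidableEq ν] {t : ℕ} (i : ν) (J : Finset (ν × Bool))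
    (e : ν × Bool → ZMod p) (h : ∃ j ∈ J, e j ≠ 0) :
    (univ.filter fun w : Om' p ν t => ∀ τ : Fin t, ∑ j ∈ J, w (i, τ) j * e j = 0).card * 2 ^ t ≤
      Fintype.card (Om' p ν t) := by
  classical
  set Ker : Finset (ν × Bool → ZMod p) := univ.filter fun r => ∑ j ∈ J, r j * e j = 0 with hKer
  have hsub : (univ.filter fun w : Om' p ν t => ∀ τ : Fin t, ∑ j ∈ J, w (i, τ) j * e j = 0) ⊆
      Fintype.piFinset (fun q : ν × Fin t => if q.1 = i then Ker else univ) := by
    intro w hw
    rw [Finset.mem_filter] at hw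
    rw [Fintype.mem_piFinset]
    rintro ⟨a, b⟩
    split_ifs with hab
    · simp only at hab
      subst hab
      rw [hKer, Finset.mem_filter]
      exact ⟨Finset.mem_univ _, hw.2 b⟩
    · exact Finset.mem_univ _
  have hle := Finset.card_le_card hsub
  rw [Fintype.card_piFinset] at hle
  have h2 : (2 : ℕ) ^ t = ∏ q : ν × Fin t, (if q.1 = i then 2 else 1) := by
    rw [Finset.prod_ite, Finset.prod_const, Finset.prod_const_one, mul_one]
    congr 1
    have : (univ.filter fun q : ν × Fin t => q.1 = i) = ({i} : Finset ν) ×ˢ univ := by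
      ext ⟨a, b⟩
      simp [eq_comm]
    rw [this, Finset.card_product]
    simp
  calc _ ≤ (∏ q : ν × Fin t, (if q.1 = i then Ker else univ).card) * 2 ^ t :=
        Nat.mul_le_mul_right _ hle
    _ = ∏ q : ν × Fin t, ((if q.1 = i then Ker else univ).card * (if q.1 = i then 2 else 1)) := by
        rw [h2, Finset.prod_mul_distrib]
    _ ≤ ∏ _q : ν × Fin t, Fintype.card (ν × Bool → ZMod p) := by
        refine Finset.prod_le_prod' fun q _ => ?_
        split_ifs with hq
        · have := ker_half' J e h
          rw [mul_comm]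
          exact this
        · simp
    _ = Fintype.card (Om' p ν t) := by
        rw [Finset.prod_const, Finset.card_univ, Fintype.card_fun (α := ν × Fin t)]

lemma exists_rec' {α : Type} (dep : ν → ℕ) (St : ν → (ν → α) → α) (d : α) :
    ∃ P : ν → α, ∀ i, P i = St i (fun j => if dep j < dep i then P j else d) := by
  classical
  let wf : WellFounded (fun a b : ν => dep a < dep b) := (measure dep).wf
  let P : ν → α := wf.fix fun i prev => St i (fun j => if h : dep j < dep i then prev j h else d)
  refine ⟨P, fun i => ?_⟩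
  have h := wf.fix_eq (C := fun _ => α)
    (fun i prev => St i (fun j => if h : dep j < dep i then prev j h else d)) i
  show P i = _
  rw [show P i = wf.fix (C := fun _ => α)
    (fun i prev => St i (fun j => if h : dep j < dep i then prev j h else d)) i from rfl, h]
  congr 1

/-- The Boolean vector of a point of the cube. -/
def tb (y : V n) : Fin n → Bool := fun i => decide (y i = 1)

/-- One step of the construction. -/
lemma step' {w : ℕ} (C : Circuit p w n) [Fintype C.Node] [DecidableEq C.Node]
    (al : C.Node → Bool) (t : ℕ) (ht : 1 ≤ t) (i : C.Node) :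
    ∃ (St : Om' p C.Node t → (C.Node → V n → Bool) → (V n → Bool))
      (Bad : V n → Om' p C.Node t → Prop),
      (∀ o prev, (∀ j, C.depth j < C.depth i →
        LB (ZMod p) (((p - 1) * t + w) ^ C.depth j) (prev j)) →
        LB (ZMod p) (((p - 1) * t + w) ^ C.depth i) (St o prev)) ∧
      (∀ o prev y, (∀ v ∈ C.leak, C.val v (tb y) = al v) →
        (∀ j, C.depth j < C.depth i → prev j y = C.val j (tb y)) → ¬ Bad y o →
          St o prev y = C.val i (tb y)) ∧
      (∀ y, i ∉ C.andOr → ∀ o, ¬ Bad y o) ∧
      (∀ y, Nat.card {o // Bad y o} * 2 ^ t ≤ Fintype.card (Om' p C.Node t)) := by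
  classical
  have hp := (Fact.out : p.Prime).two_le
  set Q : ℕ := (p - 1) * t + w with hQdef
  have hpt : 1 ≤ (p - 1) * t := Nat.one_le_iff_ne_zero.2 (by
    have : p - 1 ≠ 0 := by omega
    exact Nat.mul_ne_zero this (by omega))
  have hQ : 1 ≤ Q := by omega
  have hmono : ∀ a b : ℕ, a ≤ b → Q ^ a ≤ Q ^ b := fun a b hab => Nat.pow_le_pow_right hQ hab
  have hnone : ∀ y : V n, Nat.card {o : Om' p C.Node t //
      (fun _ _ => False : V n → Om' p C.Node t → Prop) y o} * 2 ^ t ≤
        Fintype.card (Om' p C.Node t) := by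
    intro y
    simp
  rcases C.rule i with h | ⟨j, h⟩ | ⟨J, hJ, h⟩
  · exact ⟨fun _ _ _ => al i, fun _ _ => False, fun _ _ _ => LB_const _ _,
      fun o prev y hy _ _ => (hy i h).symm, fun _ _ _ h => h, hnone⟩
  · refine ⟨fun _ _ y => decide (y j = 1), fun _ _ => False, ?_, ?_, fun _ _ _ h => h, hnone⟩
    · intro o prev _
      refine LB_mono (Nat.one_le_pow _ _ hQ) ?_
      unfold LB
      have : (fun y : V n => bi (ZMod p) (decide (y j = 1))) = mon (ZMod p) {j} := by
        funext y
        simp [bi, mon, bit]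
      rw [this]
      exact mon_mem _ (by simp)
    · intro o prev y _ _ _
      rw [h]
      rfl
  -- the literals
  have hlit : ∀ prev : C.Node → V n → Bool,
      (∀ j, C.depth j < C.depth i → LB (ZMod p) (Q ^ C.depth j) (prev j)) →
      ∀ u ∈ J, LB (ZMod p) (Q ^ (C.depth i - 1)) (fun y => decide (prev u.1 y = u.2)) := by
    intro prev hprev u hu
    have h1 := hJ u hu
    have h2 : LB (ZMod p) (Q ^ (C.depth i - 1)) (prev u.1) :=
      LB_mono (hmono _ _ (by omega)) (hprev u.1 h1)
    cases hb : u.2
    · have : (fun y => decide (prev u.1 y = false)) = fun y => !prev u.1 y := by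
        funext y
        cases prev u.1 y <;> simp
      rw [this]
      exact LB_not h2
    · have : (fun y => decide (prev u.1 y = true)) = prev u.1 := by
        funext y
        cases prev u.1 y <;> simp
      rw [this]
      exact h2
  have hfil : ∀ (prev : C.Node → V n → Bool) (y : V n),
      (∀ j, C.depth j < C.depth i → prev j y = C.val j (tb y)) →
      (J.filter fun u => (fun u y => decide (prev u.1 y = u.2)) u y = true) =
        J.filter fun u => C.val u.1 (tb y) = u.2 := by
    intro prev y hprev
    refine Finset.filter_congr fun u hu => ?_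
    simp only [decide_eq_true_eq]
    rw [hprev u.1 (hJ u hu)]
  have hcases : J = ∅ ∨ 1 ≤ C.depth i := by
    rcases J.eq_empty_or_nonempty with h | ⟨u, hu⟩
    · exact Or.inl h
    · have := hJ u hu
      exact Or.inr (by omega)
  have hsucc : 1 ≤ C.depth i → Q ^ C.depth i = Q * Q ^ (C.depth i - 1) := by
    intro hd
    obtain ⟨m, hm⟩ : ∃ m, C.depth i = m + 1 := ⟨C.depth i - 1, by omega⟩
    rw [hm, Nat.add_sub_cancel, pow_succ]; ring
  rcases h with ⟨hw, F, h⟩ | ⟨_, r, h⟩ | h
  · refine ⟨fun _ prev y => F (J.filter fun u => (fun u y => decide (prev u.1 y = u.2)) u y = true),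
      fun _ _ => False, ?_, ?_, fun _ _ _ h => h, hnone⟩
    · intro o prev hprev
      have h1 := small_LB J (fun u y => decide (prev u.1 y = u.2)) (hlit prev hprev) F
      refine LB_mono ?_ h1
      rcases hcases with hJe | hd
      · subst hJe; simp
      · rw [hsucc hd]
        exact Nat.mul_le_mul_right _ (by omega)
    · intro o prev y _ hprev _
      show F (J.filter fun u => (fun u y => decide (prev u.1 y = u.2)) u y = true) = _
      rw [hfil prev y hprev, h]
  · refine ⟨fun _ prev y => decide (((J.filter fun u =>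
      (fun u y => decide (prev u.1 y = u.2)) u y = true).card : ZMod p) = (r : ZMod p)),
      fun _ _ => False, ?_, ?_, fun _ _ _ h => h, hnone⟩
    · intro o prev hprev
      rcases hcases with hJe | hd
      · subst hJe
        refine LB_mono (Nat.zero_le _) ?_
        exact LB_const 0 (decide ((((∅ : Finset (C.Node × Bool)).filter fun _ => true = true).card :
          ZMod p) = (r : ZMod p)))
      · have h1 := md_LB J (r : ZMod p) (fun u y => decide (prev u.1 y = u.2)) (hlit prev hprev)
        refine LB_mono ?_ h1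
        rw [hsucc hd]
        refine Nat.mul_le_mul_right _ ?_
        have : p - 1 ≤ (p - 1) * t := Nat.le_mul_of_pos_right _ (by omega)
        omega
    · intro o prev y _ hprev _
      show decide (((J.filter fun u =>
        (fun u y => decide (prev u.1 y = u.2)) u y = true).card : ZMod p) = (r : ZMod p)) = _
      rw [hfil prev y hprev, h]
      congr 1
      rw [ZMod.natCast_eq_natCast_iff]
  -- AND and OR gates
  have hdeg : ∀ (o : Om' p C.Node t) (c : C.Node × Bool → V n → Bool),
      (∀ j ∈ J, LB (ZMod p) (Q ^ (C.depth i - 1)) (c j)) →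
      LB (ZMod p) (Q ^ C.depth i) (zs J (fun τ => o (i, τ)) c) := by
    intro o c hc
    rcases hcases with hJe | hd
    · subst hJe
      have e : zs (∅ : Finset (C.Node × Bool)) (fun τ => o (i, τ)) c = fun _ => true := by
        funext y; simp [zs]
      rw [e]
      exact LB_const _ _
    · refine LB_mono ?_ (zs_LB J (fun τ => o (i, τ)) c hc)
      rw [hsucc hd, ← mul_assoc]
      refine Nat.mul_le_mul_right _ ?_
      rw [mul_comm t]
      omega
  have hcount : ∀ c : C.Node × Bool → Bool, Nat.card {o : Om' p C.Node t // (∃ j ∈ J, c j = true) ∧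
      ∀ τ : Fin t, ∑ j ∈ J, o (i, τ) j * bi (ZMod p) (c j) = 0} * 2 ^ t ≤
        Fintype.card (Om' p C.Node t) := by
    intro c
    by_cases hc : ∃ j ∈ J, c j = true
    · have h1 := bad_count' (t := t) i J (fun j => bi (ZMod p) (c j)) (by
        obtain ⟨j, hj, hcj⟩ := hc
        refine ⟨j, hj, ?_⟩
        rw [hcj]; simp [bi])
      have h2 : Nat.card {o : Om' p C.Node t // (∃ j ∈ J, c j = true) ∧
          ∀ τ : Fin t, ∑ j ∈ J, o (i, τ) j * bi (ZMod p) (c j) = 0} =
          (univ.filter fun o : Om' p C.Node t => ∀ τ : Fin t,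
            ∑ j ∈ J, o (i, τ) j * bi (ZMod p) (c j) = 0).card := by
        rw [Nat.card_eq_fintype_card, Fintype.card_subtype]
        congr 1
        ext o
        simp only [Finset.mem_filter, Finset.mem_univ, true_and]
        exact ⟨fun h => h.2, fun h => ⟨hc, h⟩⟩
      rw [h2]
      exact h1
    · have : IsEmpty {o : Om' p C.Node t // (∃ j ∈ J, c j = true) ∧
          ∀ τ : Fin t, ∑ j ∈ J, o (i, τ) j * bi (ZMod p) (c j) = 0} :=
        ⟨fun o => hc o.2.1⟩
      rw [Nat.card_of_isEmpty, zero_mul]
      exact Nat.zero_le _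
  have hbi : ∀ (prev : C.Node → V n → Bool) (y : V n),
      (∀ j, C.depth j < C.depth i → prev j y = C.val j (tb y)) →
      ∀ u ∈ J, decide (prev u.1 y = u.2) = decide (C.val u.1 (tb y) = u.2) := by
    intro prev y hprev u hu
    rw [hprev u.1 (hJ u hu)]
  rcases h with ⟨hi, h⟩ | ⟨hi, h⟩
  · refine ⟨fun o prev y => zs J (fun τ => o (i, τ)) (fun u y => !decide (prev u.1 y = u.2)) y,
      fun y o => (∃ u ∈ J, (!decide (C.val u.1 (tb y) = u.2)) = true) ∧
        ∀ τ : Fin t, ∑ u ∈ J, o (i, τ) u * bi (ZMod p) (!decide (C.val u.1 (tb y) = u.2)) = 0,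
      ?_, ?_, ?_, ?_⟩
    · intro o prev hprev
      exact hdeg o _ fun j hj => LB_not (hlit prev hprev j hj)
    · intro o prev y _ hprev hbad
      have e : zs J (fun τ => o (i, τ)) (fun u y => !decide (prev u.1 y = u.2)) y =
          decide (∀ τ : Fin t, ∑ u ∈ J, o (i, τ) u *
            bi (ZMod p) (!decide (C.val u.1 (tb y) = u.2)) = 0) := by
        unfold zs
        congr 1
        rw [eq_iff_iff]
        refine forall_congr' fun τ => ?_
        have : ∑ u ∈ J, o (i, τ) u * bi (ZMod p) (!decide (prev u.1 y = u.2)) =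
            ∑ u ∈ J, o (i, τ) u * bi (ZMod p) (!decide (C.val u.1 (tb y) = u.2)) :=
          Finset.sum_congr rfl fun u hu => by rw [hbi prev y hprev u hu]
        rw [this]
      show zs J (fun τ => o (i, τ)) (fun u y => !decide (prev u.1 y = u.2)) y = C.val i (tb y)
      rw [e, h]
      by_cases hall : ∀ u ∈ J, C.val u.1 (tb y) = u.2
      · have hz : ∀ τ : Fin t, ∑ u ∈ J, o (i, τ) u *
            bi (ZMod p) (!decide (C.val u.1 (tb y) = u.2)) = 0 := by
          intro τ
          refine Finset.sum_eq_zero fun u hu => ?_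
          rw [decide_eq_true (hall u hu)]; simp [bi]
        have h2 : ∀ (i2 : Decidable (∀ u ∈ J, C.val u.1 (tb y) = u.2)), @decide _ i2 = true :=
          fun i2 => @decide_eq_true _ i2 hall
        exact (@decide_eq_true _ _ hz).trans (h2 _).symm
      · have hz : ¬ ∀ τ : Fin t, ∑ u ∈ J, o (i, τ) u *
            bi (ZMod p) (!decide (C.val u.1 (tb y) = u.2)) = 0 := by
          intro hz
          apply hbad
          push Not at hall
          obtain ⟨u, hu, hv⟩ := hall
          refine ⟨⟨u, hu, ?_⟩, hz⟩
          rw [decide_eq_false hv]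
          rfl
        have h2 : ∀ (i2 : Decidable (∀ u ∈ J, C.val u.1 (tb y) = u.2)), @decide _ i2 = false :=
          fun i2 => @decide_eq_false _ i2 hall
        exact (@decide_eq_false _ _ hz).trans (h2 _).symm
    · intro y hi'; exact absurd hi hi'
    · intro y
      exact hcount fun u => !decide (C.val u.1 (tb y) = u.2)
  · refine ⟨fun o prev y => !zs J (fun τ => o (i, τ)) (fun u y => decide (prev u.1 y = u.2)) y,
      fun y o => (∃ u ∈ J, (decide (C.val u.1 (tb y) = u.2)) = true) ∧
        ∀ τ : Fin t, ∑ u ∈ J, o (i, τ) u * bi (ZMod p) (decide (C.val u.1 (tb y) = u.2)) = 0,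
      ?_, ?_, ?_, ?_⟩
    · intro o prev hprev
      exact LB_not (hdeg o _ (hlit prev hprev))
    · intro o prev y _ hprev hbad
      have e : zs J (fun τ => o (i, τ)) (fun u y => decide (prev u.1 y = u.2)) y =
          decide (∀ τ : Fin t, ∑ u ∈ J, o (i, τ) u *
            bi (ZMod p) (decide (C.val u.1 (tb y) = u.2)) = 0) := by
        unfold zs
        congr 1
        rw [eq_iff_iff]
        refine forall_congr' fun τ => ?_
        have : ∑ u ∈ J, o (i, τ) u * bi (ZMod p) (decide (prev u.1 y = u.2)) =
            ∑ u ∈ J, o (i, τ) u * bi (ZMod p) (decide (C.val u.1 (tb y) = u.2)) :=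
          Finset.sum_congr rfl fun u hu => by rw [hbi prev y hprev u hu]
        rw [this]
      show (!zs J (fun τ => o (i, τ)) (fun u y => decide (prev u.1 y = u.2)) y) = C.val i (tb y)
      rw [e, h]
      by_cases hex : ∃ u ∈ J, C.val u.1 (tb y) = u.2
      · have hz : ¬ ∀ τ : Fin t, ∑ u ∈ J, o (i, τ) u *
            bi (ZMod p) (decide (C.val u.1 (tb y) = u.2)) = 0 := fun hz => hbad ⟨by
              obtain ⟨u, hu, hv⟩ := hex
              exact ⟨u, hu, decide_eq_true hv⟩, hz⟩
        rw [decide_eq_true hex, decide_eq_false hz]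
        rfl
      · have hz : ∀ τ : Fin t, ∑ u ∈ J, o (i, τ) u *
            bi (ZMod p) (decide (C.val u.1 (tb y) = u.2)) = 0 := by
          intro τ
          refine Finset.sum_eq_zero fun u hu => ?_
          have : ¬ C.val u.1 (tb y) = u.2 := fun hv => hex ⟨u, hu, hv⟩
          rw [decide_eq_false this]; simp [bi]
        rw [decide_eq_false hex, decide_eq_true hz]
        rfl
    · intro y hi'; exact absurd hi hi'
    · intro y
      exact hcount fun u => decide (C.val u.1 (tb y) = u.2)

/-- Joint probabilistic polynomials for all the nodes of a circuit. -/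
theorem approx' {w : ℕ} (C : Circuit p w n) [Fintype C.Node] (al : C.Node → Bool) (t : ℕ)
    (ht : 1 ≤ t) :
    ∃ P : Om' p C.Node t → C.Node → V n → Bool,
      (∀ o i, LB (ZMod p) (((p - 1) * t + w) ^ C.depth i) (P o i)) ∧
      ∀ y, (∀ v ∈ C.leak, C.val v (tb y) = al v) →
        Nat.card {o // ∃ i, P o i y ≠ C.val i (tb y)} * 2 ^ t ≤
          C.andOr.card * Nat.card (Om' p C.Node t) := by
  classical
  choose St Bad h1 h2 h3 h4 using step' C al t ht
  have hP : ∀ o : Om' p C.Node t, ∃ P : C.Node → V n → Bool, ∀ i, P i =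
      St i o (fun j => if C.depth j < C.depth i then P j else fun _ => false) := fun o =>
    exists_rec' C.depth (fun i prev => St i o prev) _
  choose P hP using hP
  have hdeg : ∀ o i, LB (ZMod p) (((p - 1) * t + w) ^ C.depth i) (P o i) := by
    intro o i
    induction hd : C.depth i using Nat.strong_induction_on generalizing i with
    | _ d ih =>
      rw [hP o i, ← hd]
      refine h1 i o _ fun j hj => ?_
      rw [if_pos hj]
      exact ih (C.depth j) (by omega) j rfl
  refine ⟨P, hdeg, fun y hy => ?_⟩
  have hsub : ∀ o, (∃ i, P o i y ≠ C.val i (tb y)) → ∃ i ∈ C.andOr, Bad i y o := by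
    intro o ho
    by_contra hcon
    push Not at hcon
    obtain ⟨i, hi⟩ := ho
    apply hi
    clear hi
    induction hd : C.depth i using Nat.strong_induction_on generalizing i with
    | _ d ih =>
      rw [hP o i]
      refine h2 i o _ y hy (fun j hj => ?_) ?_
      · rw [if_pos hj]
        exact ih (C.depth j) (by omega) j rfl
      · by_cases hi : i ∈ C.andOr
        · exact hcon i hi
        · exact h3 i y hi o
  have hle : Nat.card {o // ∃ i, P o i y ≠ C.val i (tb y)} ≤
      ∑ i ∈ C.andOr, Nat.card {o // Bad i y o} := by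
    have e1 : Nat.card {o // ∃ i, P o i y ≠ C.val i (tb y)} =
        (univ.filter fun o : Om' p C.Node t => ∃ i, P o i y ≠ C.val i (tb y)).card := by
      rw [Nat.card_eq_fintype_card, Fintype.card_subtype]
    have e2 : ∀ i, Nat.card {o // Bad i y o} =
        (univ.filter fun o : Om' p C.Node t => Bad i y o).card := by
      intro i
      rw [Nat.card_eq_fintype_card, Fintype.card_subtype]
    rw [e1, Finset.sum_congr rfl fun i _ => e2 i]
    refine (Finset.card_le_card ?_).trans Finset.card_biUnion_le
    intro o ho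
    obtain ⟨i, hi, hb⟩ := hsub o (Finset.mem_filter.1 ho).2
    exact Finset.mem_biUnion.2 ⟨i, hi, Finset.mem_filter.2 ⟨Finset.mem_univ _, hb⟩⟩
  calc Nat.card {o // ∃ i, P o i y ≠ C.val i (tb y)} * 2 ^ t
      ≤ (∑ i ∈ C.andOr, Nat.card {o // Bad i y o}) * 2 ^ t := Nat.mul_le_mul_right _ hle
    _ = ∑ i ∈ C.andOr, Nat.card {o // Bad i y o} * 2 ^ t := Finset.sum_mul _ _ _
    _ ≤ ∑ _i ∈ C.andOr, Fintype.card (Om' p C.Node t) := Finset.sum_le_sum fun i _ => h4 i y
    _ = C.andOr.card * Nat.card (Om' p C.Node t) := by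
        rw [Finset.sum_const, smul_eq_mul, Nat.card_eq_fintype_card]

end Pool.Agent.Y603.MP
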