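import Pool.Agent.Y603.MP.Dim

/-!
The carry in the multiplication by a constant.
-/

set_option autoImplicit false

namespace Pool.Agent.Y603.MP

open Finset Pool.Agent.W856.Corner

lemma mod_aux (B t c h : ℕ) (ht : t < B) (hc : c < B) (hh : (t + c) % B = h) :
    (h + (B - t)) % B = c := by
  rcases lt_or_ge (t + c) B with h1 | h1
  · rw [Nat.mod_eq_of_lt h1] at hh
    subst hh
    rw [show t + c + (B - t) = c + B by omega, Nat.add_mod_right, Nat.mod_eq_of_lt hc]
  · rw [Nat.mod_eq_sub_mod h1, Nat.mod_eq_of_lt (by omega)] at hh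
    subst hh
    rw [show t + c - B + (B - t) = c by omega, Nat.mod_eq_of_lt hc]

/-- The carry into the position `a`, computed from the next `b` digits of `N` and `x`. -/
def car (m b h u : ℕ) : ℕ := (h + (2 ^ b - m * u % 2 ^ b)) % 2 ^ b

lemma carry (m b a n N x : ℕ) (hm0 : 0 < m) (hm : m < 2 ^ b) (hab : a + b ≤ n)
    (h : (m * x) % 2 ^ n = N % 2 ^ n) :
    m * (x % 2 ^ a) = N % 2 ^ a + 2 ^ a * car m b (N / 2 ^ a % 2 ^ b) (x / 2 ^ a % 2 ^ b) := by
  have hA : 0 < 2 ^ a := by positivity
  have hB : 0 < 2 ^ b := by positivity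
  set c : ℕ := m * (x % 2 ^ a) / 2 ^ a with hc
  have hcm : c < m := by
    rw [hc, Nat.div_lt_iff_lt_mul hA]
    exact Nat.mul_lt_mul_of_pos_left (Nat.mod_lt _ hA) hm0
  have hab' : (m * x) % (2 ^ a * 2 ^ b) = N % (2 ^ a * 2 ^ b) := by
    have hd : 2 ^ a * 2 ^ b ∣ 2 ^ n := by
      rw [← pow_add]
      exact pow_dvd_pow 2 hab
    exact Nat.ModEq.of_dvd hd h
  have ha' : (m * x) % 2 ^ a = N % 2 ^ a := by
    have hd : 2 ^ a ∣ 2 ^ a * 2 ^ b := Dvd.intro _ rfl
    exact Nat.ModEq.of_dvd hd hab'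
  have h1 : (m * (x % 2 ^ a)) % 2 ^ a = N % 2 ^ a := by
    rw [Nat.mul_mod_mod, ha']
  have h2 : m * (x % 2 ^ a) = N % 2 ^ a + 2 ^ a * c := by
    have := Nat.div_add_mod (m * (x % 2 ^ a)) (2 ^ a)
    rw [h1, ← hc] at this
    omega
  have h3 : m * x / 2 ^ a = m * (x / 2 ^ a) + c := by
    have h4 := Nat.div_add_mod x (2 ^ a)
    calc m * x / 2 ^ a = m * (2 ^ a * (x / 2 ^ a) + x % 2 ^ a) / 2 ^ a := by rw [h4]
      _ = (m * (x % 2 ^ a) + 2 ^ a * (m * (x / 2 ^ a))) / 2 ^ a := by congr 1; ring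
      _ = m * (x / 2 ^ a) + c := by rw [Nat.add_mul_div_left _ _ hA, add_comm, hc]
  have h4 : N / 2 ^ a % 2 ^ b = (m * (x / 2 ^ a % 2 ^ b) % 2 ^ b + c) % 2 ^ b := by
    rw [← Nat.mod_mul_right_div_self, ← hab', Nat.mod_mul_right_div_self, h3]
    rw [Nat.mul_mod_mod, Nat.mod_add_mod]
  rw [h2]
  congr 2
  unfold car
  exact (mod_aux _ _ _ _ (Nat.mod_lt _ hB) (lt_trans hcm hm) h4.symm).symm

/-- The number with the digits `β 0, …, β (k - 1)`. -/
def num (β : ℕ → Bool) (k : ℕ) : ℕ := ∑ i ∈ range k, if β i = true then 2 ^ i else 0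

lemma num_lt (β : ℕ → Bool) (k : ℕ) : num β k < 2 ^ k := by
  induction k with
  | zero => simp [num]
  | succ k ih =>
    unfold num at ih ⊢
    rw [Finset.sum_range_succ, pow_succ]
    split_ifs <;> omega

lemma num_add (β : ℕ → Bool) (a b : ℕ) :
    num β (a + b) = num β a + 2 ^ a * num (fun i => β (a + i)) b := by
  unfold num
  rw [Finset.sum_range_add, Finset.mul_sum]
  congr 1
  refine Finset.sum_congr rfl fun i _ => ?_
  split_ifs
  · rw [pow_add]
  · ring

lemma num_mod (β : ℕ → Bool) (a n : ℕ) (h : a ≤ n) : num β n % 2 ^ a = num β a := by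
  obtain ⟨b, rfl⟩ := Nat.exists_eq_add_of_le h
  rw [num_add, Nat.add_mul_mod_self_left, Nat.mod_eq_of_lt (num_lt β a)]

lemma num_div_mod (β : ℕ → Bool) (a b n : ℕ) (h : a + b ≤ n) :
    num β n / 2 ^ a % 2 ^ b = num (fun i => β (a + i)) b := by
  have hA : 0 < 2 ^ a := by positivity
  rw [← Nat.mod_mul_right_div_self, ← pow_add, num_mod β (a + b) n h, num_add,
    Nat.add_mul_div_left _ _ hA, Nat.div_eq_of_lt (num_lt β a), zero_add]

variable {n : ℕ} {K : Type} [Field K]

/-- The digits of an element of the cube, followed by zeros. -/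
def dig (y : V n) (i : ℕ) : Bool := if h : i < n then decide (y ⟨i, h⟩ = 1) else false

/-- The values of some functions, followed by zeros. -/
def dg (X : Fin n → V n → Bool) (y : V n) (i : ℕ) : Bool := if h : i < n then X ⟨i, h⟩ y else false

lemma interval_prod (ζ : K) (y : V n) (a a' : ℕ) (h : a ≤ a') (h' : a' ≤ n) :
    ζ ^ num (dig y) a * prd (fun i : Fin n => ζ ^ 2 ^ (i : ℕ))
      (univ.filter fun i : Fin n => a ≤ i ∧ (i : ℕ) < a') y = ζ ^ num (dig y) a' := by
  induction a', h using Nat.le_induction with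
  | base =>
    have : (univ.filter fun i : Fin n => a ≤ i ∧ (i : ℕ) < a) = ∅ := by
      rw [Finset.filter_eq_empty_iff]
      intro i _ hi
      omega
    rw [this]
    simp [prd]
  | succ k hk ih =>
    have hkn : k < n := by omega
    have hs : (univ.filter fun i : Fin n => a ≤ i ∧ (i : ℕ) < k + 1) =
        insert ⟨k, hkn⟩ (univ.filter fun i : Fin n => a ≤ i ∧ (i : ℕ) < k) := by
      ext i
      simp only [Finset.mem_filter, Finset.mem_univ, true_and, Finset.mem_insert, Fin.ext_iff]
      omega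
    have hne : (⟨k, hkn⟩ : Fin n) ∉ (univ.filter fun i : Fin n => a ≤ i ∧ (i : ℕ) < k) := by
      simp
    have h1 : prd (fun i : Fin n => ζ ^ 2 ^ (i : ℕ)) (univ.filter fun i : Fin n => a ≤ i ∧ (i : ℕ) < k + 1) y =
        fac (fun i : Fin n => ζ ^ 2 ^ (i : ℕ)) ⟨k, hkn⟩ y *
        prd (fun i : Fin n => ζ ^ 2 ^ (i : ℕ)) (univ.filter fun i : Fin n => a ≤ i ∧ (i : ℕ) < k) y := by
      rw [hs]
      unfold prd
      rw [Finset.prod_insert hne, Pi.mul_apply]
    have h2 : num (dig y) (k + 1) = num (dig y) k + if dig y k = true then 2 ^ k else 0 := by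
      unfold num
      rw [Finset.sum_range_succ]
    rw [h1, h2, pow_add, ← ih (by omega)]
    have h3 : ζ ^ (if dig y k = true then 2 ^ k else 0) =
        fac (fun i : Fin n => ζ ^ 2 ^ (i : ℕ)) ⟨k, hkn⟩ y := by
      unfold fac dig
      simp only [hkn, dif_pos, decide_eq_true_eq]
      split_ifs <;> simp
    rw [h3]
    ring

/-- A function of few functions of low degree has low degree. -/
lemma junta_mem {r : ℕ} (D : Fin r → ℕ) (f : Fin r → V n → Bool) (hf : ∀ j, LB K (D j) (f j))
    (φ : (Fin r → Bool) → K) : (fun y => φ (fun j => f j y)) ∈ LK K n (∑ j, D j) := by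
  classical
  have h : (fun y => φ (fun j => f j y)) = ∑ a : Fin r → Bool,
      φ a • ∏ j, (if a j = true then (fun y => bi K (f j y)) else 1 - fun y => bi K (f j y)) := by
    funext y
    rw [Finset.sum_apply, Finset.sum_eq_single (fun j => f j y)]
    · rw [Pi.smul_apply, smul_eq_mul, Finset.prod_apply, Finset.prod_eq_one, mul_one]
      intro j _
      by_cases hj : f j y = true
      · simp [hj, bi]
      · simp [hj, bi]
    · intro a _ ha
      obtain ⟨j, hj⟩ := Function.ne_iff.1 ha
      rw [Pi.smul_apply, smul_eq_mul, Finset.prod_apply, Finset.prod_eq_zero (Finset.mem_univ j),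
        mul_zero]
      by_cases haj : a j = true
      · rw [if_pos haj]
        have : f j y = false := by
          rw [haj] at hj
          simpa using hj.symm
        simp [this, bi]
      · rw [if_neg haj]
        have : f j y = true := by
          rw [Bool.not_eq_true] at haj
          rw [haj] at hj
          simpa using hj.symm
        simp [this, bi]
    · intro h; exact absurd (Finset.mem_univ _) h
  rw [h]
  refine Submodule.sum_mem _ fun a _ => Submodule.smul_mem _ _ (LK_prod _ _ _ fun j _ => ?_)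
  split_ifs
  · exact hf j
  · exact Submodule.sub_mem _ (LK_one _) (hf j)

lemma dig_LB (i : ℕ) : LB K 1 (fun y : V n => dig y i) := by
  unfold dig
  by_cases h : i < n
  · simp only [h, dif_pos]
    unfold LB
    have : (fun y : V n => bi K (decide (y ⟨i, h⟩ = 1))) = mon K {⟨i, h⟩} := by
      funext y
      simp [bi, mon, bit]
    rw [this]
    exact mon_mem _ (by simp)
  · simp only [h, dif_neg, not_false_iff]
    exact LB_const 1 false

lemma dg_LB {D : ℕ} (X : Fin n → V n → Bool) (hX : ∀ i, LB K D (X i)) (i : ℕ) :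
    LB K D (fun y : V n => dg X y i) := by
  unfold dg
  by_cases h : i < n
  · simp only [h, dif_pos]
    exact hX _
  · simp only [h, dif_neg, not_false_iff]
    exact LB_const D false

/-- The carry as a function of low degree. -/
lemma carry_mem {D b : ℕ} (X : Fin n → V n → Bool) (hX : ∀ i, LB K D (X i)) (a : ℕ)
    (φ : ℕ → ℕ → K) : (fun y => φ (num (fun i => dig y (a + i)) b) (num (fun i => dg X y (a + i)) b))
      ∈ LK K n (b + b * D) := by
  let f : Fin (b + b) → V n → Bool :=
    Fin.append (fun j y => dig y (a + j)) (fun j y => dg X y (a + j))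
  have h := junta_mem (K := K) (n := n) (r := b + b) (Fin.append (fun _ => 1) (fun _ => D)) f
    (fun j => by
      refine Fin.addCases (fun i => ?_) (fun i => ?_) j
      · simp only [f, Fin.append_left]
        exact dig_LB _
      · simp only [f, Fin.append_right]
        exact dg_LB X hX _)
    (fun v => φ (num (fun i => if h : i < b then v (Fin.castAdd b ⟨i, h⟩) else false) b)
      (num (fun i => if h : i < b then v (Fin.natAdd b ⟨i, h⟩) else false) b))
  have e : ∑ j : Fin (b + b), (Fin.append (fun _ : Fin b => 1) (fun _ : Fin b => D)) j = b + b * D := by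
    rw [Fin.sum_univ_add]
    simp only [Fin.append_left, Fin.append_right, Finset.sum_const, Finset.card_univ,
      Fintype.card_fin, smul_eq_mul, mul_one]
  rw [e] at h
  convert h using 3 with y
  · unfold num
    refine Finset.sum_congr rfl fun i hi => ?_
    rw [Finset.mem_range] at hi
    simp only [hi, dif_pos, f, Fin.append_left]
  · unfold num
    refine Finset.sum_congr rfl fun i hi => ?_
    rw [Finset.mem_range] at hi
    simp only [hi, dif_pos, f, Fin.append_right]

/-- **Low degree inverses.** If functions `X i` of degree at most `D` are the digits of a number `x`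
with `m x = y` modulo `2 ^ n`, for all `y` in `G`, then `G` is small. -/
theorem low_degree_bound {D b m q : ℕ} {ζ : K} (hζ : IsPrimitiveRoot ζ q) (hq : 2 < q)
    (hqo : Nat.Coprime q 2) (hqm : q ∣ m) (hm0 : 0 < m) (hmb : m < 2 ^ b)
    (X : Fin n → V n → Bool) (hX : ∀ i, LB K D (X i)) (G : Finset (V n))
    (hG : ∀ y ∈ G, (m * num (dg X y) n) % 2 ^ n = num (dig y) n) (δ k L : ℕ)
    (hδ : 2 * (b + b * D) ≤ δ) (hL : L = 64 * δ ^ 2) (hk : k * L + b ≤ n) (r : ℕ) (hδ1 : 1 ≤ δ) :
    (G.card : ℝ) ≤ 2 ^ n * Real.exp (1 / (60 * δ) * (r - n / 2) + (1 / (60 * δ)) ^ 2 * n / 8) +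
      2 ^ n * Real.exp (1 / (60 * δ) * (n / 2 - r) - k / 90 +
        (1 / (60 * δ)) ^ 2 * (n - k * L) / 8) := by
  classical
  have hL0 : 0 < L := by rw [hL]; positivity
  set c : Fin n → K := fun i => ζ ^ 2 ^ (i : ℕ) with hc
  have hζ0 : ζ ≠ 0 := hζ.ne_zero (by omega)
  have hc0 : ∀ i, c i ≠ 0 := fun i => pow_ne_zero _ hζ0
  have hc1 : ∀ i, c i ≠ 1 := by
    intro i h
    have h1 : q ∣ 2 ^ (i : ℕ) := (hζ.pow_eq_one_iff_dvd _).1 h
    have h2 : Nat.Coprime q (2 ^ (i : ℕ)) := Nat.Coprime.pow_right _ hqo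
    have h3 := Nat.Coprime.eq_one_of_dvd h2 h1
    omega
  -- the product over an initial segment
  have hseg : ∀ a : ℕ, a + b ≤ n → ∀ y ∈ G, ζ ^ num (dig y) a *
      ζ ^ (2 ^ a * car m b (num (fun i => dig y (a + i)) b) (num (fun i => dg X y (a + i)) b)) = 1 := by
    intro a ha y hy
    have hN : num (dig y) n % 2 ^ n = num (dig y) n := Nat.mod_eq_of_lt (num_lt _ _)
    have h1 := carry m b a n (num (dig y) n) (num (dg X y) n) hm0 hmb ha (by rw [hN, hG y hy])
    rw [num_mod _ a n (by omega), num_mod _ a n (by omega), num_div_mod _ a b n ha,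
      num_div_mod _ a b n ha] at h1
    rw [← pow_add, ← h1, hζ.pow_eq_one_iff_dvd]
    exact Dvd.dvd.mul_right hqm _
  have hW : ∀ j < k, ∃ W ∈ LK K n δ, ∀ y ∈ G, W y = prd c (blk n L j) y := by
    intro j hj
    have hj1 : (j + 1) * L ≤ k * L := Nat.mul_le_mul_right _ hj
    have hj2 : (j + 1) * L = j * L + L := by ring
    let R : ℕ → V n → K := fun a y =>
      ζ ^ (2 ^ a * car m b (num (fun i => dig y (a + i)) b) (num (fun i => dg X y (a + i)) b))
    let R' : ℕ → V n → K := fun a y =>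
      (ζ ^ (2 ^ a * car m b (num (fun i => dig y (a + i)) b) (num (fun i => dg X y (a + i)) b)))⁻¹
    have hR : ∀ a, R a ∈ LK K n (b + b * D) := fun a =>
      carry_mem X hX a (fun u v => ζ ^ (2 ^ a * car m b u v))
    have hR' : ∀ a, R' a ∈ LK K n (b + b * D) := fun a =>
      carry_mem X hX a (fun u v => (ζ ^ (2 ^ a * car m b u v))⁻¹)
    refine ⟨R (j * L) * R' ((j + 1) * L), LK_mono (by omega) (LK_mul (hR _) (hR' _)), ?_⟩
    intro y hy
    have h1 := hseg (j * L) (by omega) y hy
    have h2 := hseg ((j + 1) * L) (by omega) y hy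
    have h3 := interval_prod ζ y (j * L) ((j + 1) * L) (by omega) (by omega)
    have h4 : R (j * L) y = (ζ ^ num (dig y) (j * L))⁻¹ := eq_inv_of_mul_eq_one_right h1
    have h5 : R' ((j + 1) * L) y = ζ ^ num (dig y) ((j + 1) * L) := by
      have h6 := eq_inv_of_mul_eq_one_left h2
      exact h6.symm
    rw [Pi.mul_apply, h4, h5, ← h3]
    rw [← mul_assoc, inv_mul_cancel₀ (pow_ne_zero _ hζ0), one_mul]
    rfl
  have hcount := dim_count c hc1 G r (univ.filter fun S : Finset (Fin n) => r < cost n L δ k S)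
    (fun S hS => by
      have h1 : cost n L δ k S ≤ r := by
        by_contra h
        exact hS (Finset.mem_filter.2 ⟨Finset.mem_univ _, by omega⟩)
      obtain ⟨h, hh, he⟩ := low_cost c hc0 G L δ k hL0 (by omega) hW S
      exact ⟨h, LK_mono h1 hh, he⟩)
  have h1 := low_tail n r (1 / (60 * δ)) (by positivity)
  have h2 := high_cost n L δ k r hδ1 hL (by omega)
  have h3 : (G.card : ℝ) ≤ ((∑ i ∈ range (r + 1), n.choose i : ℕ) : ℝ) +
      ((univ.filter fun S : Finset (Fin n) => r < cost n L δ k S).card : ℝ) := by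
    exact_mod_cast hcount
  linarith

end Pool.Agent.Y603.MP
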