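import Pool.Agent.Y603.MP.Count

/-!
Counting the subsets of low cost.
-/

set_option autoImplicit false

namespace Pool.Agent.Y603.MP

open Finset

lemma one_add_exp_neg_le (l : ℝ) : 1 + Real.exp (-l) ≤ 2 * Real.exp (-(l / 2) + l ^ 2 / 8) := by
  have h := Real.cosh_le_exp_half_sq (l / 2)
  rw [Real.cosh_eq] at h
  have h1 : 1 + Real.exp (-l) = 2 * Real.exp (-(l / 2)) * ((Real.exp (l / 2) + Real.exp (-(l / 2))) / 2) := by
    have e1 : Real.exp (-(l / 2)) * Real.exp (l / 2) = 1 := by
      rw [← Real.exp_add]; simp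
    have e2 : Real.exp (-(l / 2)) * Real.exp (-(l / 2)) = Real.exp (-l) := by
      rw [← Real.exp_add]; ring_nf
    calc 1 + Real.exp (-l) = Real.exp (-(l / 2)) * Real.exp (l / 2) +
          Real.exp (-(l / 2)) * Real.exp (-(l / 2)) := by rw [e1, e2]
      _ = _ := by ring
  rw [h1, Real.exp_add, ← mul_assoc]
  refine mul_le_mul_of_nonneg_left (h.trans (le_of_eq ?_)) (by positivity)
  congr 1
  ring

lemma one_add_exp_le (l : ℝ) : 1 + Real.exp l ≤ 2 * Real.exp (l / 2 + l ^ 2 / 8) := by
  have h := one_add_exp_neg_le (-l)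
  rw [neg_neg] at h
  refine h.trans (le_of_eq ?_)
  congr 2
  ring

/-- The lower tail of the binomial distribution. -/
lemma low_tail (n D : ℕ) (l : ℝ) (hl : 0 ≤ l) :
    ((∑ i ∈ range (D + 1), n.choose i : ℕ) : ℝ) ≤
      2 ^ n * Real.exp (l * (D - n / 2) + l ^ 2 * n / 8) := by
  have h1 : ((∑ i ∈ range (D + 1), n.choose i : ℕ) : ℝ) ≤
      ∑ i ∈ range (n + 1), (n.choose i : ℝ) * Real.exp (l * (D - i)) := by
    push_cast
    have h2 : ∀ i ∈ range (D + 1), (n.choose i : ℝ) ≤ (n.choose i : ℝ) * Real.exp (l * (D - i)) := by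
      intro i hi
      have h3 : (i : ℝ) ≤ D := by
        have := Finset.mem_range.1 hi
        exact_mod_cast (by omega : i ≤ D)
      exact le_mul_of_one_le_right (Nat.cast_nonneg _)
        (Real.one_le_exp (mul_nonneg hl (by linarith)))
    refine (Finset.sum_le_sum h2).trans ?_
    have h4 : ∑ i ∈ range (D + 1), (n.choose i : ℝ) * Real.exp (l * (D - i)) ≤
        ∑ i ∈ range (max D n + 1), (n.choose i : ℝ) * Real.exp (l * (D - i)) := by
      refine Finset.sum_le_sum_of_subset_of_nonneg ?_ ?_
      · intro i hi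
        rw [Finset.mem_range] at hi ⊢
        have := le_max_left D n
        omega
      · intro i _ _
        positivity
    refine h4.trans (le_of_eq ?_)
    symm
    refine Finset.sum_subset ?_ ?_
    · intro i hi
      rw [Finset.mem_range] at hi ⊢
      have := le_max_right D n
      omega
    · intro i _ hi
      rw [Finset.mem_range] at hi
      rw [Nat.choose_eq_zero_of_lt (by omega)]
      simp
  refine h1.trans ?_
  have h2 : ∑ i ∈ range (n + 1), (n.choose i : ℝ) * Real.exp (l * (D - i)) =
      Real.exp (l * D) * (1 + Real.exp (-l)) ^ n := by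
    rw [add_comm (1 : ℝ), add_pow, Finset.mul_sum]
    refine Finset.sum_congr rfl fun i _ => ?_
    rw [one_pow, mul_one, ← Real.exp_nat_mul,
      show l * (D - i) = l * D + (i : ℝ) * (-l) by ring, Real.exp_add]
    ring
  rw [h2]
  have h3 : (1 + Real.exp (-l)) ^ n ≤ (2 * Real.exp (-(l / 2) + l ^ 2 / 8)) ^ n :=
    pow_le_pow_left₀ (by positivity) (one_add_exp_neg_le l) n
  refine (mul_le_mul_of_nonneg_left h3 (Real.exp_pos _).le).trans (le_of_eq ?_)
  rw [mul_pow, ← Real.exp_nat_mul]
  have : Real.exp (l * (D - n / 2) + l ^ 2 * n / 8) =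
      Real.exp (l * D) * Real.exp (n * (-(l / 2) + l ^ 2 / 8)) := by
    rw [← Real.exp_add]; congr 1; ring
  rw [this]
  ring

section Blocks

variable {n : ℕ}

/-- The blocks of `L` consecutive positions. -/
def blk (n L j : ℕ) : Finset (Fin n) := univ.filter fun i => j * L ≤ i ∧ (i : ℕ) < (j + 1) * L

/-- The positions beyond the blocks. -/
def rst (n L k : ℕ) : Finset (Fin n) := univ.filter fun i => k * L ≤ i

/-- The cost of a set of positions. -/
def cost (n L δ k : ℕ) (S : Finset (Fin n)) : ℕ :=
  ∑ j ∈ range k, min (S ∩ blk n L j).card (δ + L - (S ∩ blk n L j).card) + (S ∩ rst n L k).card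

lemma card_ico (n a b : ℕ) (hb : b ≤ n) :
    (univ.filter fun i : Fin n => a ≤ i ∧ (i : ℕ) < b).card = b - a := by
  rw [← Finset.card_map Fin.valEmbedding, ← Nat.card_Ico]
  congr 1
  ext x
  simp only [Finset.mem_map, Finset.mem_filter, Finset.mem_univ, true_and, Fin.valEmbedding_apply,
    Finset.mem_Ico]
  constructor
  · rintro ⟨i, h, rfl⟩
    exact h
  · intro h
    exact ⟨⟨x, by omega⟩, h, rfl⟩

lemma card_blk (n L j k : ℕ) (hj : j < k) (hk : k * L ≤ n) : (blk n L j).card = L := by
  have h1 : (j + 1) * L ≤ k * L := Nat.mul_le_mul_right _ hj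
  have h2 : (j + 1) * L = j * L + L := by ring
  unfold blk
  rw [card_ico n (j * L) ((j + 1) * L) (by omega)]
  omega

lemma card_rst (n L k : ℕ) : (rst n L k).card = n - k * L := by
  rw [← card_ico n (k * L) n le_rfl]
  unfold rst
  congr 1
  ext i
  simp

/-- The parts into which the positions are divided. -/
def part (n L k : ℕ) : Option (Fin k) → Finset (Fin n)
  | none => rst n L k
  | some j => blk n L j

lemma part_cover (n L k : ℕ) (hL : 0 < L) (i : Fin n) : ∃ j, i ∈ part n L k j := by
  by_cases h : k * L ≤ i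
  · exact ⟨none, by simp [part, rst, h]⟩
  · have h1 : (i : ℕ) / L < k := (Nat.div_lt_iff_lt_mul hL).2 (by omega)
    refine ⟨some ⟨(i : ℕ) / L, h1⟩, ?_⟩
    simp only [part, blk, Finset.mem_filter, Finset.mem_univ, true_and]
    constructor
    · exact Nat.div_mul_le_self _ _
    · have h2 := Nat.div_add_mod (i : ℕ) L
      have h3 := Nat.mod_lt (i : ℕ) hL
      calc (i : ℕ) = L * ((i : ℕ) / L) + (i : ℕ) % L := h2.symm
        _ < L * ((i : ℕ) / L) + L := by omega
        _ = ((i : ℕ) / L + 1) * L := by ring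

/-- The exponential moment of the cost. -/
lemma sum_exp_cost (n L δ k : ℕ) (l : ℝ) (hL : 0 < L) (hk : k * L ≤ n) :
    ∑ S : Finset (Fin n), Real.exp (l * cost n L δ k S) ≤
      (sp L (fun x => Real.exp (l * min x (δ + L - x)))) ^ k *
        (1 + Real.exp l) ^ (n - k * L) := by
  classical
  let φ : Option (Fin k) → Finset (Fin n) → ℝ := fun j U =>
    match j with
    | none => Real.exp (l * U.card)
    | some _ => Real.exp (l * min (U.card : ℝ) (δ + L - U.card))
  have hφ0 : ∀ j U, 0 ≤ φ j U := by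
    intro j U
    cases j <;> exact (Real.exp_pos _).le
  have h1 : ∀ S : Finset (Fin n), Real.exp (l * cost n L δ k S) =
      ∏ j, φ j (S ∩ part n L k j) := by
    intro S
    rw [Fintype.prod_option]
    have h2 : (cost n L δ k S : ℝ) = (S ∩ rst n L k).card +
        ∑ j : Fin k, min ((S ∩ blk n L j).card : ℝ) (δ + L - (S ∩ blk n L j).card) := by
      unfold cost
      rw [Nat.cast_add, add_comm, ← Fin.sum_univ_eq_sum_range
        (fun j => min (S ∩ blk n L j).card (δ + L - (S ∩ blk n L j).card))]
      congr 1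
      rw [Nat.cast_sum]
      refine Finset.sum_congr rfl fun j _ => ?_
      have h3 : (S ∩ blk n L j).card ≤ L :=
        (Finset.card_le_card Finset.inter_subset_right).trans (card_blk n L j k j.2 hk).le
      rw [Nat.cast_min, Nat.cast_sub (by omega), Nat.cast_add]
    rw [h2, mul_add, Finset.mul_sum, Real.exp_add, Real.exp_sum]
    rfl
  rw [Finset.sum_congr rfl fun S _ => h1 S]
  have h2 : ∑ S : Finset (Fin n), ∏ j, φ j (S ∩ part n L k j) ≤
      ∑ U ∈ Fintype.piFinset (fun j => (part n L k j).powerset), ∏ j, φ j (U j) := by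
    have hinj : Function.Injective (fun (S : Finset (Fin n)) (j : Option (Fin k)) =>
        S ∩ part n L k j) := by
      intro S S' h
      ext i
      obtain ⟨j, hj⟩ := part_cover n L k hL i
      have h3 := congrFun h j
      simp only at h3
      have h4 : i ∈ S ∩ part n L k j ↔ i ∈ S' ∩ part n L k j := by rw [h3]
      simpa [Finset.mem_inter, hj] using h4
    rw [← Finset.sum_image (f := fun U : Option (Fin k) → Finset (Fin n) => ∏ j, φ j (U j))
      (fun a _ b _ h => hinj h)]
    refine Finset.sum_le_sum_of_subset_of_nonneg ?_ ?_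
    · intro U hU
      obtain ⟨S, _, rfl⟩ := Finset.mem_image.1 hU
      rw [Fintype.mem_piFinset]
      intro j
      rw [Finset.mem_powerset]
      exact Finset.inter_subset_right
    · intro U _ _
      exact Finset.prod_nonneg fun j _ => hφ0 j _
  refine h2.trans (le_of_eq ?_)
  rw [← Finset.prod_univ_sum, Fintype.prod_option, mul_comm]
  congr 1
  · have : ∀ j : Fin k, ∑ U ∈ (part n L k (some j)).powerset, φ (some j) U =
        sp L (fun x => Real.exp (l * min x (δ + L - x))) := by
      intro j
      have h3 := Finset.sum_powerset_apply_card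
        (fun i => Real.exp (l * min (i : ℝ) (δ + L - i))) (x := part n L k (some j))
      rw [show (part n L k (some j)).card = L from card_blk n L j k j.2 hk] at h3
      unfold sp
      refine h3.trans (Finset.sum_congr rfl fun i _ => ?_)
      rw [nsmul_eq_mul]
    rw [Finset.prod_congr rfl fun j _ => this j, Finset.prod_const, Finset.card_univ,
      Fintype.card_fin]
  · have h3 := Finset.sum_powerset_apply_card
        (fun i => Real.exp (l * (i : ℝ))) (x := part n L k none)
    rw [show (part n L k none).card = n - k * L from card_rst n L k] at h3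
    refine h3.trans ?_
    rw [add_comm (1 : ℝ), add_pow]
    refine Finset.sum_congr rfl fun i _ => ?_
    rw [one_pow, mul_one, nsmul_eq_mul, ← Real.exp_nat_mul, mul_comm l, mul_comm]

/-- There are few sets of high cost. -/
lemma high_cost (n L δ k r : ℕ) (hδ : 1 ≤ δ) (hL : L = 64 * δ ^ 2) (hk : k * L ≤ n) :
    ((univ.filter fun S : Finset (Fin n) => r < cost n L δ k S).card : ℝ) ≤
      2 ^ n * Real.exp (1 / (60 * δ) * (n / 2 - r) - k / 90 +
        (1 / (60 * δ)) ^ 2 * (n - k * L) / 8) := by
  set l : ℝ := 1 / (60 * δ) with hl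
  have hδ' : (1 : ℝ) ≤ δ := by exact_mod_cast hδ
  have hl0 : 0 ≤ l := by positivity
  have hL0 : 0 < L := by rw [hL]; positivity
  have h1 : ((univ.filter fun S : Finset (Fin n) => r < cost n L δ k S).card : ℝ) ≤
      ∑ S : Finset (Fin n), Real.exp (l * (cost n L δ k S) - l * r) := by
    rw [Finset.card_eq_sum_ones, Nat.cast_sum]
    calc ∑ S ∈ univ.filter (fun S : Finset (Fin n) => r < cost n L δ k S), ((1 : ℕ) : ℝ)
        ≤ ∑ S ∈ univ.filter (fun S : Finset (Fin n) => r < cost n L δ k S),
            Real.exp (l * (cost n L δ k S) - l * r) := by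
          refine Finset.sum_le_sum fun S hS => ?_
          rw [Nat.cast_one]
          refine Real.one_le_exp ?_
          have h2 : (r : ℝ) ≤ cost n L δ k S := by exact_mod_cast (Finset.mem_filter.1 hS).2.le
          nlinarith
      _ ≤ _ := Finset.sum_le_sum_of_subset_of_nonneg (Finset.filter_subset _ _)
          fun _ _ _ => (Real.exp_pos _).le
  have h2 : ∑ S : Finset (Fin n), Real.exp (l * (cost n L δ k S) - l * r) =
      Real.exp (-(l * r)) * ∑ S : Finset (Fin n), Real.exp (l * (cost n L δ k S)) := by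
    rw [Finset.mul_sum]
    refine Finset.sum_congr rfl fun S _ => ?_
    rw [← Real.exp_add]
    congr 1
    ring
  rw [h2] at h1
  refine h1.trans ?_
  have h3 := sum_exp_cost n L δ k l hL0 hk
  have h4 := block_moment δ L hδ hL
  rw [← hl] at h4
  have h5 : sp L (fun x => Real.exp (l * min x (δ + L - x))) ^ k ≤
      (2 ^ L * Real.exp (l * (L / 2) - 1 / 90)) ^ k := by
    refine pow_le_pow_left₀ ?_ h4 k
    unfold sp
    positivity
  have h6 : (1 + Real.exp l) ^ (n - k * L) ≤ (2 * Real.exp (l / 2 + l ^ 2 / 8)) ^ (n - k * L) :=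
    pow_le_pow_left₀ (by positivity) (one_add_exp_le l) _
  have h7 : sp L (fun x => Real.exp (l * min x (δ + L - x))) ^ k * (1 + Real.exp l) ^ (n - k * L) ≤
      (2 ^ L * Real.exp (l * (L / 2) - 1 / 90)) ^ k *
        (2 * Real.exp (l / 2 + l ^ 2 / 8)) ^ (n - k * L) :=
    mul_le_mul h5 h6 (by positivity) (by positivity)
  refine (mul_le_mul_of_nonneg_left (h3.trans h7) (Real.exp_pos _).le).trans (le_of_eq ?_)
  rw [mul_pow, mul_pow, ← pow_mul, ← Real.exp_nat_mul, ← Real.exp_nat_mul]
  have h8 : (2 : ℝ) ^ n = 2 ^ (L * k) * 2 ^ (n - k * L) := by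
    rw [← pow_add]
    congr 1
    rw [mul_comm L k]
    omega
  have h9 : Real.exp (l * (n / 2 - r) - k / 90 + l ^ 2 * (n - k * L) / 8) =
      Real.exp (-(l * r)) * (Real.exp (k * (l * (L / 2) - 1 / 90)) *
        Real.exp ((n - k * L : ℕ) * (l / 2 + l ^ 2 / 8))) := by
    rw [← Real.exp_add, ← Real.exp_add]
    congr 1
    rw [Nat.cast_sub hk]
    push_cast
    ring
  rw [h8, h9]
  ring

end Blocks

end Pool.Agent.Y603.MP
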