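import Mathlib

/-!
Exponential moments of the cost function `min |S| (δ + L - |S|)` of a random subset of a block.
-/

set_option autoImplicit false

namespace Pool.Agent.Y603.MP

open Finset

/-- Sums over the subsets of a set with `L` elements, of functions of the cardinality. -/
noncomputable def sp (L : ℕ) (f : ℝ → ℝ) : ℝ := ∑ i ∈ range (L + 1), (L.choose i : ℝ) * f i

lemma sp_succ (L : ℕ) (f : ℝ → ℝ) : sp (L + 1) f = sp L f + sp L (fun x => f (x + 1)) := by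
  unfold sp
  rw [Finset.sum_range_succ']
  have h1 : ∑ k ∈ range (L + 1), ((L + 1).choose (k + 1) : ℝ) * f ((k + 1 : ℕ) : ℝ) =
      ∑ k ∈ range (L + 1), (L.choose k : ℝ) * f ((k : ℝ) + 1) +
        ∑ k ∈ range (L + 1), (L.choose (k + 1) : ℝ) * f ((k + 1 : ℕ) : ℝ) := by
    rw [← Finset.sum_add_distrib]
    refine Finset.sum_congr rfl fun k _ => ?_
    rw [Nat.choose_succ_succ]
    push_cast
    ring
  rw [h1]
  have h2 : ∑ i ∈ range (L + 1), (L.choose i : ℝ) * f i =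
      ∑ k ∈ range (L + 1), (L.choose (k + 1) : ℝ) * f ((k + 1 : ℕ) : ℝ) + f 0 := by
    have h3 := Finset.sum_range_succ' (fun i => (L.choose i : ℝ) * f i) (L + 1)
    have h4 := Finset.sum_range_succ (fun i => (L.choose i : ℝ) * f i) (L + 1)
    simp only [Nat.choose_succ_self, Nat.cast_zero, zero_mul, add_zero, Nat.choose_zero_right,
      Nat.cast_one, one_mul] at h3 h4
    rw [← h4, h3]
  rw [h2]
  simp
  ring

lemma sp_add (L : ℕ) (f g : ℝ → ℝ) : sp L (fun x => f x + g x) = sp L f + sp L g := by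
  unfold sp
  rw [← Finset.sum_add_distrib]
  exact Finset.sum_congr rfl fun i _ => by ring

lemma sp_mul (L : ℕ) (c : ℝ) (f : ℝ → ℝ) : sp L (fun x => c * f x) = c * sp L f := by
  unfold sp
  rw [Finset.mul_sum]
  exact Finset.sum_congr rfl fun i _ => by ring

lemma sp_le (L : ℕ) (f g : ℝ → ℝ) (h : ∀ x, f x ≤ g x) : sp L f ≤ sp L g :=
  Finset.sum_le_sum fun i _ => mul_le_mul_of_nonneg_left (h i) (Nat.cast_nonneg _)

lemma sp_one (L : ℕ) : sp L (fun _ => 1) = 2 ^ L := by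
  induction L with
  | zero => simp [sp]
  | succ L ih => rw [sp_succ, ih]; ring

lemma sp_two (L : ℕ) : sp L (fun x => (x - L / 2) ^ 2) = 2 ^ L * (L / 4) := by
  induction L with
  | zero => simp [sp]
  | succ L ih =>
    rw [sp_succ, ← sp_add]
    have h : (fun x : ℝ => (x - ((L + 1 : ℕ) : ℝ) / 2) ^ 2 + (x + 1 - ((L + 1 : ℕ) : ℝ) / 2) ^ 2) =
        fun x : ℝ => 2 * (x - (L : ℝ) / 2) ^ 2 + 1 / 2 * (1 : ℝ) := by
      funext x; push_cast; ring
    rw [h, sp_add, sp_mul, sp_mul, ih, sp_one]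
    push_cast
    ring

lemma sp_four (L : ℕ) : sp L (fun x => (x - L / 2) ^ 4) = 2 ^ L * ((3 * L ^ 2 - 2 * L) / 16) := by
  induction L with
  | zero => simp [sp]
  | succ L ih =>
    rw [sp_succ, ← sp_add]
    have h : (fun x : ℝ => (x - ((L + 1 : ℕ) : ℝ) / 2) ^ 4 + (x + 1 - ((L + 1 : ℕ) : ℝ) / 2) ^ 4) =
        fun x : ℝ => (2 * (x - (L : ℝ) / 2) ^ 4 + 3 * (x - (L : ℝ) / 2) ^ 2) + 1 / 8 * (1 : ℝ) := by
      funext x; push_cast; ring
    rw [h, sp_add, sp_add, sp_mul, sp_mul, sp_mul, ih, sp_two, sp_one]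
    push_cast
    ring

lemma abs_ge (y A : ℝ) (hA : 0 < A) : 3 / 2 * y ^ 2 / A - 1 / 2 * y ^ 4 / A ^ 3 ≤ |y| := by
  have h : ∀ u : ℝ, 0 ≤ u → 3 / 2 * u ^ 2 - 1 / 2 * u ^ 4 ≤ u := by
    intro u hu
    nlinarith [mul_nonneg hu (mul_nonneg (sq_nonneg (u - 1)) (by linarith : (0 : ℝ) ≤ u + 2))]
  have h1 := h (|y| / A) (by positivity)
  have h2 : 3 / 2 * (|y| / A) ^ 2 - 1 / 2 * (|y| / A) ^ 4 =
      (3 / 2 * y ^ 2 / A - 1 / 2 * y ^ 4 / A ^ 3) / A := by
    have h4 : |y| ^ 4 = y ^ 4 := by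
      rw [show (4 : ℕ) = 2 * 2 by norm_num, pow_mul, pow_mul, sq_abs]
    rw [div_pow, div_pow, sq_abs, h4]
    field_simp
  rw [h2, div_le_div_iff_of_pos_right hA] at h1
  exact h1

/-- The exponential moment of the cost of a block. -/
lemma block_moment (δ L : ℕ) (hδ : 1 ≤ δ) (hL : L = 64 * δ ^ 2) :
    sp L (fun x => Real.exp (1 / (60 * δ) * min x (δ + L - x))) ≤
      2 ^ L * Real.exp (1 / (60 * δ) * (L / 2) - 1 / 90) := by
  have hδ' : (1 : ℝ) ≤ δ := by exact_mod_cast hδ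
  have hδ0 : (0 : ℝ) < δ := by linarith
  have hLr : (L : ℝ) = 64 * δ ^ 2 := by rw [hL]; push_cast; ring
  set l : ℝ := 1 / (60 * δ) with hl
  have hl0 : 0 < l := by positivity
  have hpt : ∀ x : ℝ, Real.exp (l * min x (δ + L - x)) ≤
      Real.exp (l * (L / 2)) * (((1 + l * δ + 2 * l ^ 2 * δ ^ 2) * 1 +
        (2 * l ^ 2 - l * (3 / 2 / (8 * δ))) * (x - L / 2) ^ 2) +
        l * (1 / 2 / (8 * δ) ^ 3) * (x - L / 2) ^ 4) := by
    intro x
    set y : ℝ := x - L / 2 with hy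
    have hx : x = y + L / 2 := by rw [hy]; ring
    set g : ℝ := min y (δ - y) with hg
    have e1 : min x (δ + L - x) = L / 2 + g := by
      rw [hg, hx, ← min_add_add_left]
      congr 1 <;> ring
    rw [e1, mul_add, Real.exp_add]
    refine mul_le_mul_of_nonneg_left ?_ (Real.exp_pos _).le
    have hg1 : g ≤ δ / 2 := by
      rw [hg]
      rcases le_total y (δ / 2) with h | h
      · exact (min_le_left _ _).trans h
      · exact (min_le_right _ _).trans (by linarith)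
    have hg2 : g ≤ δ - |y| := by
      rw [hg]
      rcases abs_cases y with ⟨h, _⟩ | ⟨h, _⟩
      · rw [h]; exact min_le_right _ _
      · rw [h]; exact (min_le_left _ _).trans (by linarith)
    have hg3 : g ^ 2 ≤ 2 * y ^ 2 + 2 * δ ^ 2 := by
      have h1 : -(|y|) ≤ g := by
        rw [hg]
        refine le_min (neg_abs_le y) ?_
        have := le_abs_self y
        linarith
      have h2 : |g| ≤ |y| + δ := by
        rw [abs_le]
        constructor
        · linarith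
        · linarith [abs_nonneg y]
      calc g ^ 2 = |g| ^ 2 := (sq_abs g).symm
        _ ≤ (|y| + δ) ^ 2 := pow_le_pow_left₀ (abs_nonneg g) h2 2
        _ ≤ 2 * |y| ^ 2 + 2 * δ ^ 2 := by nlinarith [sq_nonneg (|y| - δ)]
        _ = 2 * y ^ 2 + 2 * δ ^ 2 := by rw [sq_abs]
    have hu : l * g ≤ 1 := by
      have : l * g ≤ l * (δ / 2) := mul_le_mul_of_nonneg_left hg1 hl0.le
      have h2 : l * (δ / 2) = 1 / 120 := by rw [hl]; field_simp; norm_num
      linarith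
    have hexp : Real.exp (l * g) ≤ 1 + l * g + (l * g) ^ 2 := by
      rcases le_total (-1) (l * g) with h | h
      · have h3 := Real.abs_exp_sub_one_sub_id_le (x := l * g) (abs_le.2 ⟨h, hu⟩)
        have h4 := (abs_le.1 h3).2
        linarith
      · have h3 : Real.exp (l * g) ≤ 1 := Real.exp_le_one_iff.2 (by linarith)
        nlinarith
    have habs := abs_ge y (8 * δ) (by positivity)
    have h5 : l * g ≤ l * (δ - (3 / 2 * y ^ 2 / (8 * δ) - 1 / 2 * y ^ 4 / (8 * δ) ^ 3)) :=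
      mul_le_mul_of_nonneg_left (by linarith) hl0.le
    have h6 : (l * g) ^ 2 ≤ l ^ 2 * (2 * y ^ 2 + 2 * δ ^ 2) := by
      rw [mul_pow]
      exact mul_le_mul_of_nonneg_left hg3 (sq_nonneg _)
    calc Real.exp (l * g) ≤ 1 + l * g + (l * g) ^ 2 := hexp
      _ ≤ 1 + l * (δ - (3 / 2 * y ^ 2 / (8 * δ) - 1 / 2 * y ^ 4 / (8 * δ) ^ 3)) +
          l ^ 2 * (2 * y ^ 2 + 2 * δ ^ 2) := by linarith
      _ = ((1 + l * δ + 2 * l ^ 2 * δ ^ 2) * 1 +
        (2 * l ^ 2 - l * (3 / 2 / (8 * δ))) * y ^ 2) + l * (1 / 2 / (8 * δ) ^ 3) * y ^ 4 := by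
          ring
  have h1 := sp_le L _ _ hpt
  rw [sp_mul, sp_add, sp_add, sp_mul, sp_mul, sp_mul, sp_one, sp_two, sp_four] at h1
  refine h1.trans ?_
  rw [sub_eq_add_neg (l * (L / 2 : ℝ)) (1 / 90), Real.exp_add]
  have hexp : 1 - 1 / 90 ≤ Real.exp (-(1 / 90)) := by
    have := Real.add_one_le_exp (-(1 / 90 : ℝ))
    linarith
  have hval : (1 + l * δ + 2 * l ^ 2 * δ ^ 2) * 2 ^ L +
        (2 * l ^ 2 - l * (3 / 2 / (8 * δ))) * (2 ^ L * (L / 4)) +
        l * (1 / 2 / (8 * δ) ^ 3) * (2 ^ L * ((3 * L ^ 2 - 2 * L) / 16)) ≤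
      2 ^ L * (1 - 1 / 90) := by
    have e : (1 + l * δ + 2 * l ^ 2 * δ ^ 2) * 2 ^ L +
        (2 * l ^ 2 - l * (3 / 2 / (8 * δ))) * (2 ^ L * (L / 4)) +
        l * (1 / 2 / (8 * δ) ^ 3) * (2 ^ L * ((3 * L ^ 2 - 2 * L) / 16)) =
        2 ^ L * ((1 + l * δ + 2 * l ^ 2 * δ ^ 2) +
        (2 * l ^ 2 - l * (3 / 2 / (8 * δ))) * (L / 4) +
        l * (1 / 2 / (8 * δ) ^ 3) * ((3 * L ^ 2 - 2 * L) / 16)) := by ring
    rw [e]
    refine mul_le_mul_of_nonneg_left ?_ (by positivity)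
    have e2 : (1 + l * δ + 2 * l ^ 2 * δ ^ 2) +
        (2 * l ^ 2 - l * (3 / 2 / (8 * δ))) * (L / 4) +
        l * (1 / 2 / (8 * δ) ^ 3) * ((3 * L ^ 2 - 2 * L) / 16) =
        1 + 1 / 60 + 2 / 3600 + 32 / 3600 - 3 / 60 + 1 / 60 * (3 / 4) -
          1 / 60 * (1 / 128) / δ ^ 2 := by
      rw [hl, hLr]
      field_simp
      ring
    rw [e2]
    have : 0 ≤ 1 / 60 * (1 / 128) / (δ : ℝ) ^ 2 := by positivity
    norm_num at this ⊢
    linarith
  calc Real.exp (l * (L / 2)) * ((1 + l * δ + 2 * l ^ 2 * δ ^ 2) * 2 ^ L +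
        (2 * l ^ 2 - l * (3 / 2 / (8 * δ))) * (2 ^ L * (L / 4)) +
        l * (1 / 2 / (8 * δ) ^ 3) * (2 ^ L * ((3 * L ^ 2 - 2 * L) / 16)))
      ≤ Real.exp (l * (L / 2)) * (2 ^ L * (1 - 1 / 90)) :=
        mul_le_mul_of_nonneg_left hval (Real.exp_pos _).le
    _ ≤ Real.exp (l * (L / 2)) * (2 ^ L * Real.exp (-(1 / 90))) := by
        refine mul_le_mul_of_nonneg_left ?_ (Real.exp_pos _).le
        exact mul_le_mul_of_nonneg_left hexp (by positivity)
    _ = 2 ^ L * (Real.exp (l * (L / 2)) * Real.exp (-(1 / 90))) := by ring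

end Pool.Agent.Y603.MP
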