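import Mathlib

/-!
Circuits with AND, OR and `MOD p` gates of unbounded fan-in and arbitrary gates of small fan-in, and
the multiplication of `n`-bit numbers by a constant.
-/

set_option autoImplicit false

namespace Pool.Agent.Y603.MP

/-- A circuit with `n` input bits. `val v x` is the bit at the node `v` if the input is `x`. An
element `(u, b)` of a set `J` of wires is a wire from the node `u`, and it is true if the bit at `u`
is `b` (so negations are free). Every node which is not in `leak` is an input bit, or a gate of one
of the following kinds: an arbitrary gate with at most `w` wires (its value is a function of the set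
of its true wires), a `MOD p` gate, an AND gate, an OR gate. The depth grows along the wires. The
nodes in `leak` may compute arbitrary functions of the input. -/
structure Circuit (p w n : ℕ) where
  Node : Type
  [finite : Finite Node]
  val : Node → (Fin n → Bool) → Bool
  depth : Node → ℕ
  andOr : Finset Node
  modular : Finset Node
  leak : Finset Node
  rule : ∀ v : Node, v ∈ leak ∨ (∃ i, ∀ x, val v x = x i) ∨
    ∃ J : Finset (Node × Bool), (∀ u ∈ J, depth u.1 < depth v) ∧
      ((J.card ≤ w ∧ ∃ F : Finset (Node × Bool) → Bool,
          ∀ x, val v x = F (J.filter fun u => val u.1 x = u.2)) ∨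
        (v ∈ modular ∧ ∃ r : ℕ,
          ∀ x, val v x = decide ((J.filter fun u => val u.1 x = u.2).card ≡ r [MOD p])) ∨
        (v ∈ andOr ∧ ∀ x, val v x = decide (∀ u ∈ J, val u.1 x = u.2)) ∨
        (v ∈ andOr ∧ ∀ x, val v x = decide (∃ u ∈ J, val u.1 x = u.2)))

/-- The number with the binary digits `x`. -/
def value {n : ℕ} (x : Fin n → Bool) : ℕ := ∑ i, if x i = true then 2 ^ (i : ℕ) else 0

/-- The last `n` binary digits of `m` times the number with the binary digits `x`. -/
def times (m : ℕ) {n : ℕ} (x : Fin n → Bool) : Fin n → Bool := fun i => (m * value x).testBit i

end Pool.Agent.Y603.MP
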