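import Pool.Agent.W856.Corner7
import Pool.Agent.Y603.MP.Chern

/-!
A set of inputs on which the interval products have low degree is small.
-/

set_option autoImplicit false

namespace Pool.Agent.Y603.MP

open Finset Pool.Agent.W856.Corner

variable {n : ℕ} {K : Type} [Field K]

/-- The factor of the position `i`. -/
def fac (c : Fin n → K) (i : Fin n) (y : V n) : K := if y i = 1 then c i else 1

/-- The product of the factors. -/
def prd (c : Fin n → K) (S : Finset (Fin n)) : V n → K := ∏ i ∈ S, fac c i

lemma fac_mem (c : Fin n → K) (i : Fin n) : fac c i ∈ LK K n 1 := by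
  have h : fac c i = 1 + (c i - 1) • mon K {i} := by
    funext y
    simp only [fac, Pi.add_apply, Pi.one_apply, Pi.smul_apply, smul_eq_mul, mon,
      Finset.prod_singleton, bit]
    split_ifs <;> ring
  rw [h]
  exact Submodule.add_mem _ (LK_one 1) (Submodule.smul_mem _ _ (mon_mem _ (by simp)))

lemma prd_mem (c : Fin n → K) (S : Finset (Fin n)) : prd c S ∈ LK K n S.card := by
  have h := LK_prod (K := K) (n := n) S (fun _ => 1) (fun i => fac c i) (fun i _ => fac_mem c i)
  simpa [prd] using h

/-- The products of the factors span all functions. -/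
lemma prd_span (c : Fin n → K) (hc : ∀ i, c i ≠ 1) (g : V n → K) :
    g ∈ Submodule.span K (Set.range (prd c)) := by
  classical
  have hc' : ∀ i, c i - 1 ≠ 0 := fun i => sub_ne_zero.2 (hc i)
  have hind : ∀ z : V n, (fun y => if y = z then (1 : K) else 0) ∈
      Submodule.span K (Set.range (prd c)) := by
    intro z
    let al : Fin n → K := fun i => if z i = 1 then (c i - 1)⁻¹ else -(c i - 1)⁻¹
    let be : Fin n → K := fun i => if z i = 1 then -(c i - 1)⁻¹ else c i * (c i - 1)⁻¹
    have h1 : (fun y => if y = z then (1 : K) else 0) =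
        ∑ t ∈ (univ : Finset (Fin n)).powerset,
          ((∏ i ∈ t, al i) * ∏ i ∈ univ \ t, be i) • prd c t := by
      funext y
      have h2 : (if y = z then (1 : K) else 0) = ∏ i, (al i * fac c i y + be i) := by
        have h3 : ∀ i, al i * fac c i y + be i = if y i = z i then 1 else 0 := by
          intro i
          simp only [al, be, fac]
          rcases zmod2_c (y i) with hy | hy <;> rcases zmod2_c (z i) with hz | hz <;>
            rw [hy, hz] <;> simp <;> field_simp [hc' i] <;> ring
        rw [Finset.prod_congr rfl fun i _ => h3 i]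
        by_cases h : y = z
        · rw [if_pos h, Finset.prod_eq_one fun i _ => by rw [h, if_pos rfl]]
        · rw [if_neg h]
          obtain ⟨i, hi⟩ := Function.ne_iff.1 h
          rw [Finset.prod_eq_zero (Finset.mem_univ i) (if_neg hi)]
      rw [h2, Finset.prod_add, Finset.sum_apply]
      refine Finset.sum_congr rfl fun t _ => ?_
      rw [Pi.smul_apply, smul_eq_mul, Finset.prod_mul_distrib]
      simp only [prd, Finset.prod_apply]
      ring
    rw [h1]
    exact Submodule.sum_mem _ fun t _ => Submodule.smul_mem _ _ (Submodule.subset_span ⟨t, rfl⟩)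
  have h2 : g = ∑ z, g z • (fun y => if y = z then (1 : K) else 0) := by
    funext y
    rw [Finset.sum_apply, Finset.sum_eq_single y]
    · simp
    · intro z _ hz
      simp [Ne.symm hz]
    · intro h; exact absurd (Finset.mem_univ _) h
  rw [h2]
  exact Submodule.sum_mem _ fun z _ => Submodule.smul_mem _ _ (hind z)

/-- The dimension count. -/
lemma dim_count (c : Fin n → K) (hc : ∀ i, c i ≠ 1) (G : Finset (V n)) (r : ℕ)
    (T : Finset (Finset (Fin n)))
    (hT : ∀ S, S ∉ T → ∃ h ∈ LK K n r, ∀ y ∈ G, h y = prd c S y) :
    G.card ≤ ∑ i ∈ range (r + 1), n.choose i + T.card := by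
  classical
  let res : (V n → K) →ₗ[K] (G → K) := LinearMap.funLeft K K (fun y : G => (y : V n))
  let A : Submodule K (G → K) := (LK K n r).map res
  let B : Submodule K (G → K) := Submodule.span K (Set.range fun S : T => res (prd c S.1))
  have htop : (⊤ : Submodule K (G → K)) ≤ A ⊔ B := by
    intro f _
    let g : V n → K := fun y => if h : y ∈ G then f ⟨y, h⟩ else 0
    have hg : res g = f := by
      funext y
      simp [res, g, LinearMap.funLeft_apply]
    rw [← hg]
    have h1 := prd_span c hc g
    have h2 : Submodule.span K (Set.range (prd c)) ≤ (A ⊔ B).comap res := by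
      refine Submodule.span_le.2 ?_
      rintro _ ⟨S, rfl⟩
      by_cases hS : S ∈ T
      · exact Submodule.mem_sup_right (Submodule.subset_span ⟨⟨S, hS⟩, rfl⟩)
      · obtain ⟨h, hh, he⟩ := hT S hS
        refine Submodule.mem_sup_left ⟨h, hh, ?_⟩
        funext y
        exact he y.1 y.2
    exact h2 h1
  have h1 : Module.finrank K (G → K) = G.card := by
    rw [Module.finrank_fintype_fun_eq_card, Fintype.card_coe]
  have h2 : Module.finrank K (G → K) ≤ Module.finrank K (A ⊔ B : Submodule K (G → K)) := by
    rw [← finrank_top K (G → K)]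
    exact Submodule.finrank_mono htop
  have h3 := Submodule.finrank_add_le_finrank_add_finrank A B
  have h4 : Module.finrank K A ≤ ∑ i ∈ range (r + 1), n.choose i :=
    (Submodule.finrank_map_le res (LK K n r)).trans (finrank_LK n r)
  have h5 : Module.finrank K B ≤ T.card := by
    have := finrank_range_le_card (R := K) (fun S : T => res (prd c S.1))
    rwa [Fintype.card_coe] at this
  omega

/-- If the products over the blocks have degree at most `δ` on `G`, then the product over any set
has degree at most its cost on `G`. -/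
lemma low_cost (c : Fin n → K) (hc : ∀ i, c i ≠ 0) (G : Finset (V n)) (L δ k : ℕ) (hL : 0 < L)
    (hk : k * L ≤ n)
    (hW : ∀ j < k, ∃ W ∈ LK K n δ, ∀ y ∈ G, W y = prd c (blk n L j) y) (S : Finset (Fin n)) :
    ∃ h ∈ LK K n (cost n L δ k S), ∀ y ∈ G, h y = prd c S y := by
  classical
  have hblk : ∀ j < k, ∃ h ∈ LK K n (min (S ∩ blk n L j).card (δ + L - (S ∩ blk n L j).card)),
      ∀ y ∈ G, h y = prd c (S ∩ blk n L j) y := by
    intro j hj
    rcases le_total (S ∩ blk n L j).card (δ + L - (S ∩ blk n L j).card) with h | h
    · rw [min_eq_left h]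
      exact ⟨_, prd_mem c _, fun _ _ => rfl⟩
    · rw [min_eq_right h]
      obtain ⟨W, hW1, hW2⟩ := hW j hj
      have hcard := card_blk n L j k hj hk
      have hle : (S ∩ blk n L j).card ≤ L :=
        (Finset.card_le_card Finset.inter_subset_right).trans hcard.le
      have hsd : (blk n L j \ (S ∩ blk n L j)).card = L - (S ∩ blk n L j).card := by
        rw [Finset.card_sdiff_of_subset Finset.inter_subset_right, hcard]
      refine ⟨W * prd (fun i => (c i)⁻¹) (blk n L j \ (S ∩ blk n L j)), ?_, ?_⟩
      · have h1 := LK_mul hW1 (prd_mem (fun i => (c i)⁻¹) (blk n L j \ (S ∩ blk n L j)))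
        rw [hsd] at h1
        refine LK_mono ?_ h1
        omega
      · intro y hy
        rw [Pi.mul_apply, hW2 y hy]
        simp only [prd, Finset.prod_apply]
        rw [← Finset.prod_sdiff (s₁ := S ∩ blk n L j) (s₂ := blk n L j)
          Finset.inter_subset_right, mul_comm, ← mul_assoc, ← Finset.prod_mul_distrib]
        have : ∏ i ∈ blk n L j \ (S ∩ blk n L j), fac (fun i => (c i)⁻¹) i y * fac c i y = 1 := by
          refine Finset.prod_eq_one fun i _ => ?_
          simp only [fac]
          split_ifs
          · exact inv_mul_cancel₀ (hc i)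
          · ring
        rw [this, one_mul]
  choose! H hH1 hH2 using hblk
  refine ⟨(∏ j ∈ range k, H j) * prd c (S ∩ rst n L k), ?_, ?_⟩
  · have h1 := LK_prod (K := K) (n := n) (range k)
      (fun j => min (S ∩ blk n L j).card (δ + L - (S ∩ blk n L j).card)) H
      (fun j hj => hH1 j (Finset.mem_range.1 hj))
    exact LK_mul h1 (prd_mem c _)
  · intro y hy
    rw [Pi.mul_apply, Finset.prod_apply,
      Finset.prod_congr rfl fun j hj => hH2 j (Finset.mem_range.1 hj) y hy]
    simp only [prd, Finset.prod_apply]
    have hdis : ∀ i ∈ (range k : Set ℕ), ∀ j ∈ (range k : Set ℕ), i ≠ j →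
        Disjoint (S ∩ blk n L i) (S ∩ blk n L j) := by
      intro i _ j _ hij
      rw [Finset.disjoint_left]
      intro a ha ha'
      simp only [blk, Finset.mem_inter, Finset.mem_filter, Finset.mem_univ, true_and] at ha ha'
      rcases lt_or_gt_of_ne hij with h | h
      · have : (i + 1) * L ≤ j * L := Nat.mul_le_mul_right _ h
        omega
      · have : (j + 1) * L ≤ i * L := Nat.mul_le_mul_right _ h
        omega
    rw [← Finset.prod_biUnion hdis]
    have hS : S = (range k).biUnion (fun j => S ∩ blk n L j) ∪ (S ∩ rst n L k) := by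
      ext i
      constructor
      · intro hi
        obtain ⟨j, hj⟩ := part_cover n L k hL i
        rw [Finset.mem_union]
        rcases j with _ | j
        · exact Or.inr (Finset.mem_inter.2 ⟨hi, hj⟩)
        · exact Or.inl (Finset.mem_biUnion.2 ⟨j, Finset.mem_range.2 j.2,
            Finset.mem_inter.2 ⟨hi, hj⟩⟩)
      · intro hi
        rcases Finset.mem_union.1 hi with h | h
        · obtain ⟨j, _, hj⟩ := Finset.mem_biUnion.1 h
          exact (Finset.mem_inter.1 hj).1
        · exact (Finset.mem_inter.1 h).1
    have hd2 : Disjoint ((range k).biUnion (fun j => S ∩ blk n L j)) (S ∩ rst n L k) := by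
      rw [Finset.disjoint_left]
      intro a ha ha'
      obtain ⟨j, hj, hja⟩ := Finset.mem_biUnion.1 ha
      have hjk := Finset.mem_range.1 hj
      simp only [blk, rst, Finset.mem_inter, Finset.mem_filter, Finset.mem_univ, true_and] at hja ha'
      have : (j + 1) * L ≤ k * L := Nat.mul_le_mul_right _ hjk
      omega
    conv_rhs => rw [hS, Finset.prod_union hd2]

end Pool.Agent.Y603.MP
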