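import Pool.Agent.Y603.MP.Hard

/-!
Constant depth circuits for the multiplication by a constant.
-/

set_option autoImplicit false

namespace Pool.Agent.Y603.MP

open Finset

lemma num_gt_iff (β : ℕ → Bool) (a : ℕ) : ∀ T, T < 2 ^ a → (T < num β a ↔
    ∃ k < a, T.testBit k = false ∧ β k = true ∧ ∀ l, k < l → l < a → T.testBit l = true →
      β l = true) := by
  induction a with
  | zero =>
    intro T _
    simp [num]
  | succ a ih =>
    intro T hT
    have h1 : num β (a + 1) = num β a + if β a = true then 2 ^ a else 0 := by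
      unfold num; rw [Finset.sum_range_succ]
    have h2 : T = T % 2 ^ a + if T.testBit a = true then 2 ^ a else 0 := by
      conv_lhs => rw [← Nat.mod_eq_of_lt hT, ← num_testBit]
      have h3 : num (fun i => T.testBit i) (a + 1) = num (fun i => T.testBit i) a +
          if T.testBit a = true then 2 ^ a else 0 := by
        unfold num; rw [Finset.sum_range_succ]
      rw [h3, num_testBit]
    have h4 := num_lt β a
    have h5 : T % 2 ^ a < 2 ^ a := Nat.mod_lt _ (by positivity)
    have h6 : ∀ l, l < a → (T % 2 ^ a).testBit l = T.testBit l := by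
      intro l hl
      rw [Nat.testBit_mod_two_pow]
      simp [hl]
    have h7 := ih (T % 2 ^ a) h5
    cases hb : β a <;> cases ht : T.testBit a
    · rw [hb] at h1
      rw [ht] at h2
      simp only [Bool.false_eq_true, if_false, add_zero] at h1 h2
      rw [h1, h2, h7]
      constructor
      · rintro ⟨k, hk, hk1, hk2, hk3⟩
        refine ⟨k, by omega, hk1, hk2, fun l hl hl2 hl3 => ?_⟩
        rcases Nat.lt_succ_iff_lt_or_eq.1 hl2 with h | h
        · exact hk3 l hl h hl3
        · subst h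
          rw [← h2, ht] at hl3
          exact absurd hl3 (by decide)
      · rintro ⟨k, hk, hk1, hk2, hk3⟩
        have hka : k < a := by
          rcases Nat.lt_succ_iff_lt_or_eq.1 hk with h | h
          · exact h
          · subst h
            rw [hb] at hk2
            exact absurd hk2 (by decide)
        exact ⟨k, hka, hk1, hk2, fun l hl hl2 hl3 => hk3 l hl (by omega) hl3⟩
    · rw [hb] at h1
      rw [ht] at h2
      simp only [Bool.false_eq_true, if_false, if_true, add_zero] at h1 h2
      constructor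
      · intro h
        omega
      · rintro ⟨k, hk, hk1, hk2, hk3⟩
        rcases Nat.lt_succ_iff_lt_or_eq.1 hk with h | h
        · have := hk3 a h (by omega) ht
          rw [hb] at this
          exact absurd this (by decide)
        · subst h
          rw [ht] at hk1
          exact absurd hk1 (by decide)
    · rw [hb] at h1
      rw [ht] at h2
      simp only [Bool.false_eq_true, if_false, if_true, add_zero] at h1 h2
      constructor
      · intro _
        exact ⟨a, by omega, ht, hb, fun l hl hl2 _ => by omega⟩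
      · intro _
        omega
    · rw [hb] at h1
      rw [ht] at h2
      simp only [if_true] at h1 h2
      have h8 : T < num β (a + 1) ↔ T % 2 ^ a < num β a := by omega
      rw [h8, h7]
      constructor
      · rintro ⟨k, hk, hk1, hk2, hk3⟩
        rw [h6 k hk] at hk1
        refine ⟨k, by omega, hk1, hk2, fun l hl hl2 hl3 => ?_⟩
        rcases Nat.lt_succ_iff_lt_or_eq.1 hl2 with h | h
        · exact hk3 l hl h (by rw [h6 l h]; exact hl3)
        · subst h
          exact hb
      · rintro ⟨k, hk, hk1, hk2, hk3⟩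
        have hka : k < a := by
          rcases Nat.lt_succ_iff_lt_or_eq.1 hk with h | h
          · exact h
          · subst h
            rw [ht] at hk1
            exact absurd hk1 (by decide)
        exact ⟨k, hka, by rw [h6 k hka]; exact hk1, hk2, fun l hl hl2 hl3 =>
          hk3 l hl (by omega) (by rw [h6 l hl2] at hl3; exact hl3)⟩

/-- The nodes of the circuit. -/
abbrev Nd (m n : ℕ) : Type :=
  Fin n ⊕ (Fin n × Fin (m + 1) × Fin n) ⊕ (Fin n × Fin (m + 1)) ⊕ (Fin n × Fin m × Bool) ⊕ Fin n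

variable (m n : ℕ)

/-- The threshold. -/
def thr (i j : ℕ) : ℕ := (j * 2 ^ i - 1) / m

def vA (i : Fin n) (j : Fin (m + 1)) (k : Fin n) (x : Fin n → Bool) : Bool :=
  decide (∀ l : Fin n, (l = k ∨ (k < l ∧ l < i ∧ (thr m i j).testBit l = true)) → x l = true)

def vB (i : Fin n) (j : Fin (m + 1)) (x : Fin n → Bool) : Bool :=
  decide (j = 0 ∨ ∃ k : Fin n, k < i ∧ (thr m i j).testBit k = false ∧ vA m n i j k x = true)

def vC (i : Fin n) (j : Fin m) (v : Bool) (x : Fin n → Bool) : Bool :=
  decide (vB m n i j.castSucc x = true ∧ vB m n i j.succ x = false ∧ x i = v)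

def vO (i : Fin n) (x : Fin n → Bool) : Bool :=
  decide (∃ jv : Fin m × Bool, (m * jv.2.toNat + (jv.1 : ℕ)) % 2 = 1 ∧ vC m n i jv.1 jv.2 x = true)

/-- The bits at the nodes. -/
def vNd : Nd m n → (Fin n → Bool) → Bool
  | Sum.inl i, x => x i
  | Sum.inr (Sum.inl a), x => vA m n a.1 a.2.1 a.2.2 x
  | Sum.inr (Sum.inr (Sum.inl b)), x => vB m n b.1 b.2 x
  | Sum.inr (Sum.inr (Sum.inr (Sum.inl c))), x => vC m n c.1 c.2.1 c.2.2 x
  | Sum.inr (Sum.inr (Sum.inr (Sum.inr i))), x => vO m n i x

/-- The depths of the nodes. -/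
def dNd : Nd m n → ℕ
  | Sum.inl _ => 0
  | Sum.inr (Sum.inl _) => 1
  | Sum.inr (Sum.inr (Sum.inl _)) => 2
  | Sum.inr (Sum.inr (Sum.inr (Sum.inl _))) => 3
  | Sum.inr (Sum.inr (Sum.inr (Sum.inr _))) => 4

/-- The circuit. -/
def cc (p w : ℕ) : Circuit p w n where
  Node := Nd m n
  val := vNd m n
  depth := dNd m n
  andOr := Finset.univ
  modular := ∅
  leak := ∅
  rule := by
    classical
    rintro (i | ⟨i, j, k⟩ | ⟨i, j⟩ | ⟨i, j, v⟩ | i)
    · exact Or.inr (Or.inl ⟨i, fun x => rfl⟩)
    · refine Or.inr (Or.inr ⟨(univ.filter fun l : Fin n =>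
        l = k ∨ (k < l ∧ l < i ∧ (thr m i j).testBit l = true)).image
          fun l => (Sum.inl l, true), ?_, ?_⟩)
      · intro u hu
        obtain ⟨l, _, rfl⟩ := Finset.mem_image.1 hu
        exact Nat.zero_lt_one
      · refine Or.inr (Or.inr (Or.inl ⟨Finset.mem_univ _, fun x => ?_⟩))
        show vA m n i j k x = _
        unfold vA
        refine decide_eq_decide.2 ?_
        rw [Finset.forall_mem_image]
        simp only [Finset.mem_filter, Finset.mem_univ, true_and]
        rfl
    · by_cases hj : j = 0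
      · refine Or.inr (Or.inr ⟨∅, by simp, Or.inr (Or.inr (Or.inl ⟨Finset.mem_univ _,
          fun x => ?_⟩))⟩)
        show vB m n i j x = _
        unfold vB
        simp [hj]
      · refine Or.inr (Or.inr ⟨(univ.filter fun k : Fin n =>
          k < i ∧ (thr m i j).testBit k = false).image
            fun k => (Sum.inr (Sum.inl (i, j, k)), true), ?_, ?_⟩)
        · intro u hu
          obtain ⟨l, _, rfl⟩ := Finset.mem_image.1 hu
          exact Nat.lt_succ_self _
        · refine Or.inr (Or.inr (Or.inr ⟨Finset.mem_univ _, fun x => ?_⟩))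
          show vB m n i j x = _
          unfold vB
          refine decide_eq_decide.2 ?_
          rw [Finset.exists_mem_image]
          simp only [Finset.mem_filter, Finset.mem_univ, true_and, hj, false_or, and_assoc]
          rfl
    · refine Or.inr (Or.inr ⟨{(Sum.inr (Sum.inr (Sum.inl (i, j.castSucc))), true),
        (Sum.inr (Sum.inr (Sum.inl (i, j.succ))), false), (Sum.inl i, v)}, ?_, ?_⟩)
      · intro u hu
        simp only [Finset.mem_insert, Finset.mem_singleton] at hu
        rcases hu with rfl | rfl | rfl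
        · exact (show 2 < 3 by norm_num)
        · exact (show 2 < 3 by norm_num)
        · exact (show 0 < 3 by norm_num)
      · refine Or.inr (Or.inr (Or.inl ⟨Finset.mem_univ _, fun x => ?_⟩))
        show vC m n i j v x = _
        unfold vC
        refine decide_eq_decide.2 ?_
        simp only [Finset.mem_insert, Finset.mem_singleton, forall_eq_or_imp, forall_eq]
        rfl
    · refine Or.inr (Or.inr ⟨(univ.filter fun jv : Fin m × Bool =>
          (m * jv.2.toNat + (jv.1 : ℕ)) % 2 = 1).image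
            fun jv => (Sum.inr (Sum.inr (Sum.inr (Sum.inl (i, jv.1, jv.2)))), true), ?_, ?_⟩)
      · intro u hu
        obtain ⟨l, _, rfl⟩ := Finset.mem_image.1 hu
        exact Nat.lt_succ_self _
      · refine Or.inr (Or.inr (Or.inr ⟨Finset.mem_univ _, fun x => ?_⟩))
        show vO m n i x = _
        unfold vO
        refine decide_eq_decide.2 ?_
        rw [Finset.exists_mem_image]
        simp only [Finset.mem_filter, Finset.mem_univ, true_and]
        rfl

lemma vA_iff (i : Fin n) (j : Fin (m + 1)) (k : Fin n) (x : Fin n → Bool) :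
    vA m n i j k x = true ↔ x k = true ∧
      ∀ l : Fin n, k < l → l < i → (thr m i j).testBit l = true → x l = true := by
  unfold vA
  rw [decide_eq_true_iff]
  constructor
  · intro h
    exact ⟨h k (Or.inl rfl), fun l h1 h2 h3 => h l (Or.inr ⟨h1, h2, h3⟩)⟩
  · rintro ⟨h1, h2⟩ l (rfl | ⟨h3, h4, h5⟩)
    · exact h1
    · exact h2 l h3 h4 h5

variable {m n}

lemma vB_iff (hm : 0 < m) (i : Fin n) (j : Fin (m + 1)) (x : Fin n → Bool) :
    vB m n i j x = true ↔ (j : ℕ) ≤ m * (value x % 2 ^ (i : ℕ)) / 2 ^ (i : ℕ) := by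
  have hpos : 0 < 2 ^ (i : ℕ) := by positivity
  have hx : x = fun a : Fin n => (fun b : ℕ => if h : b < n then x ⟨b, h⟩ else false) a := by
    funext a; simp
  have hval : value x % 2 ^ (i : ℕ) = num (fun b : ℕ => if h : b < n then x ⟨b, h⟩ else false) i := by
    conv_lhs => rw [hx, value_num fun b : ℕ => if h : b < n then x ⟨b, h⟩ else false]
    exact num_mod _ _ _ i.2.le
  unfold vB
  rw [decide_eq_true_iff]
  by_cases hj : j = 0
  · subst hj
    simp
  · have hj1 : 1 ≤ (j : ℕ) := by
      rcases Nat.eq_zero_or_pos (j : ℕ) with h | h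
      · exact absurd (Fin.ext h) hj
      · exact h
    have hjm : (j : ℕ) ≤ m := Nat.lt_succ_iff.1 j.2
    have hT : thr m i j < 2 ^ (i : ℕ) := by
      unfold thr
      rw [Nat.div_lt_iff_lt_mul hm]
      have h1 : (j : ℕ) * 2 ^ (i : ℕ) ≤ m * 2 ^ (i : ℕ) := Nat.mul_le_mul_right _ hjm
      have h2 : 0 < (j : ℕ) * 2 ^ (i : ℕ) := Nat.mul_pos hj1 hpos
      have h3 : m * 2 ^ (i : ℕ) = 2 ^ (i : ℕ) * m := mul_comm _ _
      omega
    have h1 := num_gt_iff (fun b : ℕ => if h : b < n then x ⟨b, h⟩ else false) i _ hT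
    have h2 : ((j : ℕ) ≤ m * (value x % 2 ^ (i : ℕ)) / 2 ^ (i : ℕ)) ↔
        thr m i j < num (fun b : ℕ => if h : b < n then x ⟨b, h⟩ else false) i := by
      rw [← hval, Nat.le_div_iff_mul_le hpos]
      unfold thr
      rw [Nat.div_lt_iff_lt_mul hm]
      have h2 : 0 < (j : ℕ) * 2 ^ (i : ℕ) := Nat.mul_pos hj1 hpos
      have h3 : value x % 2 ^ (i : ℕ) * m = m * (value x % 2 ^ (i : ℕ)) := mul_comm _ _
      omega
    rw [h2, h1]
    simp only [hj, false_or]
    constructor
    · rintro ⟨k, hk, hk1, hk2⟩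
      rw [vA_iff] at hk2
      refine ⟨k, hk, hk1, ?_, fun l hl hl2 hl3 => ?_⟩
      · simp [hk2.1]
      · have hln : l < n := lt_trans hl2 i.2
        have := hk2.2 ⟨l, hln⟩ hl hl2 hl3
        simp [hln, this]
    · rintro ⟨k, hk, hk1, hk2, hk3⟩
      have hkn : k < n := lt_trans hk i.2
      refine ⟨⟨k, hkn⟩, hk, hk1, (vA_iff m n i j _ x).2 ⟨?_, fun l hl hl2 hl3 => ?_⟩⟩
      · simpa [hkn] using hk2
      · have := hk3 l hl hl2 hl3
        simpa using this

lemma vC_iff (hm : 0 < m) (i : Fin n) (j : Fin m) (v : Bool) (x : Fin n → Bool) :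
    vC m n i j v x = true ↔
      m * (value x % 2 ^ (i : ℕ)) / 2 ^ (i : ℕ) = j ∧ x i = v := by
  unfold vC
  rw [decide_eq_true_iff, ← Bool.not_eq_true, vB_iff hm, vB_iff hm]
  simp only [Fin.val_castSucc, Fin.val_succ]
  constructor
  · rintro ⟨h1, h2, h3⟩
    exact ⟨by omega, h3⟩
  · rintro ⟨h1, h3⟩
    exact ⟨by omega, by omega, h3⟩

lemma vO_eq (hm : 0 < m) (i : Fin n) (x : Fin n → Bool) : vO m n i x = times m x i := by
  have hpos : 0 < 2 ^ (i : ℕ) := by positivity
  have h1 : m * value x / 2 ^ (i : ℕ) = m * (value x / 2 ^ (i : ℕ)) +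
      m * (value x % 2 ^ (i : ℕ)) / 2 ^ (i : ℕ) := by
    have h4 := Nat.div_add_mod (value x) (2 ^ (i : ℕ))
    calc m * value x / 2 ^ (i : ℕ)
        = m * (2 ^ (i : ℕ) * (value x / 2 ^ (i : ℕ)) + value x % 2 ^ (i : ℕ)) / 2 ^ (i : ℕ) := by
          rw [h4]
      _ = (m * (value x % 2 ^ (i : ℕ)) + 2 ^ (i : ℕ) * (m * (value x / 2 ^ (i : ℕ)))) /
            2 ^ (i : ℕ) := by congr 1; ring
      _ = _ := by rw [Nat.add_mul_div_left _ _ hpos, add_comm]
  have h2 : value x / 2 ^ (i : ℕ) % 2 = (x i).toNat := by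
    have := testBit_value x i
    rw [Nat.testBit_eq_decide_div_mod_eq] at this
    rcases Nat.mod_two_eq_zero_or_one (value x / 2 ^ (i : ℕ)) with h | h <;> rw [h] at this ⊢ <;>
      rw [← this] <;> decide
  have hc : m * (value x % 2 ^ (i : ℕ)) / 2 ^ (i : ℕ) < m := by
    rw [Nat.div_lt_iff_lt_mul hpos]
    exact Nat.mul_lt_mul_of_pos_left (Nat.mod_lt _ hpos) hm
  unfold vO times
  rw [Nat.testBit_eq_decide_div_mod_eq]
  rw [Bool.eq_iff_iff, decide_eq_true_iff, decide_eq_true_iff, h1, Nat.add_mod, Nat.mul_mod, h2]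
  have h5 : ∀ c, ((m % 2 * ((x i).toNat % 2) % 2 + c % 2) % 2 = 1 ↔
      (m * (x i).toNat + c) % 2 = 1) := by
    intro c
    rw [← Nat.mul_mod, ← Nat.add_mod]
  have h6 : (x i).toNat = (x i).toNat % 2 := by cases x i <;> rfl
  rw [h6, h5]
  constructor
  · rintro ⟨⟨j, v⟩, hj, hc⟩
    rw [vC_iff hm] at hc
    simp only at hj hc
    rw [hc.1, hc.2]
    exact hj
  · intro h
    refine ⟨(⟨_, hc⟩, x i), h, ?_⟩
    rw [vC_iff hm]
    exact ⟨rfl, rfl⟩

/-- The multiplication by a constant has circuits of constant depth. -/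
theorem easy {m : ℕ} (hm : 0 < m) (p n : ℕ) : ∃ (C : Circuit p 0 n) (out : Fin n → C.Node),
    (∀ x i, C.val (out i) x = times m x i) ∧ (∀ v, C.depth v ≤ 4) ∧
      C.andOr.card ≤ 4 * m * (n + 1) ^ 2 ∧ C.modular = ∅ ∧ C.leak = ∅ := by
  refine ⟨cc m n p 0, fun i => Sum.inr (Sum.inr (Sum.inr (Sum.inr i))), fun x i => ?_, ?_, ?_,
    rfl, rfl⟩
  · exact vO_eq hm i x
  · rintro (i | ⟨i, j, k⟩ | ⟨i, j⟩ | ⟨i, j, v⟩ | i) <;> simp [cc, dNd]
  · show (Finset.univ : Finset (Nd m n)).card ≤ _
    rw [Finset.card_univ]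
    simp only [Fintype.card_sum, Fintype.card_prod, Fintype.card_fin, Fintype.card_bool]
    nlinarith [Nat.zero_le (n * n), Nat.mul_le_mul_right n hm, Nat.mul_le_mul_right (n * n) hm]

end Pool.Agent.Y603.MP
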