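import Pool.Agent.Y603.MP.Numer
import Pool.Agent.Y603.MP.Approx

/-!
The lower bound for the inversion of the multiplication by a constant.
-/

set_option autoImplicit false

namespace Pool.Agent.Y603.MP

open Finset Pool.Agent.W856.Corner

lemma LB_map {n p D : ℕ} [Fact p.Prime] {K : Type} [Field K] [Algebra (ZMod p) K] {f : V n → Bool}
    (hf : LB (ZMod p) D f) : LB K D f := by
  have key : ∀ g ∈ LK (ZMod p) n D, (fun y => algebraMap (ZMod p) K (g y)) ∈ LK K n D := by
    intro g hg
    unfold LK at hg
    induction hg using Submodule.span_induction with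
    | mem g hg =>
      obtain ⟨s, rfl⟩ := hg
      have : (fun y => algebraMap (ZMod p) K (mon (ZMod p) s.1 y)) = mon K s.1 := by
        funext y
        unfold mon bit
        rw [map_prod]
        refine Finset.prod_congr rfl fun i _ => ?_
        split_ifs <;> simp
      rw [this]
      exact mon_mem _ s.2
    | zero =>
      have : (fun y : V n => algebraMap (ZMod p) K ((0 : V n → ZMod p) y)) = 0 := by
        funext y; simp
      rw [this]
      exact Submodule.zero_mem _
    | add a b _ _ ha hb =>
      have : (fun y => algebraMap (ZMod p) K ((a + b) y)) =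
          (fun y => algebraMap (ZMod p) K (a y)) + fun y => algebraMap (ZMod p) K (b y) := by
        funext y; simp
      rw [this]
      exact Submodule.add_mem _ ha hb
    | smul c a _ ha =>
      have : (fun y => algebraMap (ZMod p) K ((c • a) y)) =
          algebraMap (ZMod p) K c • fun y => algebraMap (ZMod p) K (a y) := by
        funext y; simp
      rw [this]
      exact Submodule.smul_mem _ _ ha
  have h := key _ hf
  unfold LB
  convert h using 2 with y
  unfold bi
  split_ifs <;> simp

lemma value_num {n : ℕ} (β : ℕ → Bool) : value (fun i : Fin n => β i) = num β n := by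
  unfold value num
  rw [Finset.sum_range]

lemma value_tb {n : ℕ} (y : V n) : value (tb y) = num (dig y) n := by
  rw [← value_num]
  congr 1
  funext i
  simp [dig, tb]

lemma value_dg {n : ℕ} (X : Fin n → V n → Bool) (y : V n) :
    value (fun i => X i y) = num (dg X y) n := by
  rw [← value_num]
  congr 1
  funext i
  simp [dg]

lemma testBit_num (β : ℕ → Bool) {n i : ℕ} (hi : i < n) : (num β n).testBit i = β i := by
  induction n with
  | zero => omega
  | succ n ih =>
    have h1 : num β (n + 1) = num β n + if β n = true then 2 ^ n else 0 := by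
      unfold num; rw [Finset.sum_range_succ]
    rw [h1]
    rcases Nat.lt_succ_iff_lt_or_eq.1 hi with h | h
    · split_ifs
      · rw [add_comm, Nat.testBit_two_pow_add_gt h, ih h]
      · rw [add_zero, ih h]
    · subst h
      have h2 : (num β i).testBit i = false := Nat.testBit_lt_two_pow (num_lt β i)
      split_ifs with hb
      · rw [add_comm, Nat.testBit_two_pow_add_eq, h2, hb]; rfl
      · rw [add_zero, h2]
        exact (Bool.eq_false_iff.2 hb).symm

lemma num_testBit (N n : ℕ) : num (fun i => N.testBit i) n = N % 2 ^ n := by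
  apply Nat.eq_of_testBit_eq
  intro j
  rw [Nat.testBit_mod_two_pow]
  rcases lt_or_ge j n with h | h
  · rw [testBit_num _ h]
    simp [h]
  · rw [Nat.testBit_lt_two_pow (lt_of_lt_of_le (num_lt _ n) (Nat.pow_le_pow_right (by norm_num) h))]
    simp [Nat.not_lt.2 h]

lemma value_times {n : ℕ} (m : ℕ) (x : Fin n → Bool) : value (times m x) = m * value x % 2 ^ n := by
  unfold times
  rw [value_num fun i => (m * value x).testBit i, num_testBit]

lemma testBit_value {n : ℕ} (x : Fin n → Bool) (i : Fin n) : (value x).testBit i = x i := by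
  have h : x = fun i : Fin n => (fun j : ℕ => if h : j < n then x ⟨j, h⟩ else false) i := by
    funext i; simp
  rw [h, value_num fun j : ℕ => if h : j < n then x ⟨j, h⟩ else false, testBit_num _ i.2]

lemma value_inj {n : ℕ} {x y : Fin n → Bool} (h : value x = value y) : x = y := by
  funext i
  rw [← testBit_value x i, h, testBit_value]

lemma value_lt {n : ℕ} (x : Fin n → Bool) : value x < 2 ^ n := by
  have h : x = fun i : Fin n => (fun j : ℕ => if h : j < n then x ⟨j, h⟩ else false) i := by
    funext i; simp
  rw [h, value_num fun j : ℕ => if h : j < n then x ⟨j, h⟩ else false]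
  exact num_lt _ _

/-- The multiplication by an odd number is a permutation. -/
theorem times_bijective {m : ℕ} (hm : Odd m) (n : ℕ) :
    Function.Bijective (times m : (Fin n → Bool) → (Fin n → Bool)) := by
  rw [← Finite.injective_iff_bijective]
  intro x y h
  have h1 : m * value x % 2 ^ n = m * value y % 2 ^ n := by
    rw [← value_times, ← value_times, h]
  have hc : Nat.Coprime (2 ^ n) m := Nat.Coprime.pow_left n (Nat.coprime_two_left.2 hm)
  have h2 : value x ≡ value y [MOD 2 ^ n] := Nat.ModEq.cancel_left_of_coprime hc h1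
  apply value_inj
  unfold Nat.ModEq at h2
  rwa [Nat.mod_eq_of_lt (value_lt x), Nat.mod_eq_of_lt (value_lt y)] at h2

/-- The elements of the vector space and the words. -/
def tbEquiv (n : ℕ) : V n ≃ (Fin n → Bool) where
  toFun := tb
  invFun x := fun i => if x i = true then 1 else 0
  left_inv y := by
    funext i
    rcases zmod2_cases (y i) with h | h <;> simp [tb, h]
  right_inv x := by
    funext i
    cases h : x i <;> simp [tb, h]

variable {p : ℕ} [Fact p.Prime]

theorem leak_bound {q m w n d s b : ℕ} (hq : q.Prime) (hqp : q ≠ p) (hqm : q ∣ m) (hm : Odd m)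
    (hmb : m < 2 ^ b) (C : Circuit p w n) (out : Fin n → C.Node) (hd : ∀ v, C.depth v ≤ d)
    (hs : C.andOr.card ≤ s) (al : C.Node → Bool) (S : Finset (V n))
    (hS : ∀ y ∈ S, times m (fun i => C.val (out i) (tb y)) = tb y ∧
      ∀ v ∈ C.leak, C.val v (tb y) = al v) :
    (S.card : ℝ) ≤ 6 * 2 ^ n * Real.exp (-(n / (2 * 10 ^ 6 *
      (b * (((p - 1) * (Nat.clog 2 s + 1) + w) ^ d : ℕ)) ^ 2))) := by
  classical
  have := C.finite
  let _ : Fintype C.Node := Fintype.ofFinite _
  have hp2 : 2 ≤ p := (Fact.out : p.Prime).two_le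
  set t : ℕ := Nat.clog 2 s + 1 with ht
  obtain ⟨P, hP1, hP2⟩ := approx' C al t (by omega)
  -- the field
  have : NeZero ((q : ℕ) : AlgebraicClosure (ZMod p)) := by
    refine ⟨fun h => ?_⟩
    have h1 : p ∣ q := (CharP.cast_eq_zero_iff (AlgebraicClosure (ZMod p)) p q).1 h
    exact hqp ((Nat.prime_dvd_prime_iff_eq (Fact.out : p.Prime) hq).1 h1).symm
  obtain ⟨ζ, hζ⟩ := HasEnoughRootsOfUnity.exists_primitiveRoot (AlgebraicClosure (ZMod p)) q
  have hqo : Odd q := Odd.of_dvd_nat hm hqm
  have hq2 : 2 < q := by
    have h1 := hq.two_le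
    rcases Nat.lt_or_ge 2 q with h | h
    · exact h
    · have : q = 2 := by omega
      subst this
      exact absurd hqo (by decide)
  have hm0 : 0 < m := hm.pos
  have hb : 1 ≤ b := by
    by_contra h
    have : b = 0 := by omega
    subst this
    simp at hmb
    omega
  set D : ℕ := ((p - 1) * t + w) ^ d with hD
  have hQ : 1 ≤ (p - 1) * t + w := by
    have : 1 ≤ (p - 1) * t := Nat.one_le_iff_ne_zero.2 (by
      have : p - 1 ≠ 0 := by omega
      positivity)
    omega
  have hD1 : 1 ≤ D := Nat.one_le_pow _ _ hQ
  set B : ℝ := 3 * 2 ^ n * Real.exp (-(n / (2 * 10 ^ 6 * (b * D : ℝ) ^ 2))) with hB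
  have hG : ∀ o : Om' p C.Node t, ((S.filter fun y => ∀ i, P o i y = C.val i (tb y)).card : ℝ) ≤ B := by
    intro o
    refine low_degree_bound' hζ hq2 ?_ hqm hm0 hmb (fun i => P o (out i)) (fun i => ?_) _ ?_ hb hD1
    · exact (Nat.coprime_two_right).2 hqo
    · refine LB_map (LB_mono ?_ (hP1 o (out i)))
      exact Nat.pow_le_pow_right hQ (hd _)
    · intro y hy
      obtain ⟨hyS, hyP⟩ := Finset.mem_filter.1 hy
      have h1 := (hS y hyS).1
      rw [← value_dg, ← value_tb, ← value_times]
      congr 1
      rw [← h1]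
      congr 1
      funext i
      rw [hyP (out i)]
  -- averaging
  have h2t : 2 * s ≤ 2 ^ t := by
    rw [ht, pow_succ]
    have := Nat.le_pow_clog (b := 2) (by norm_num) s
    omega
  have hgood : ∀ y ∈ S, (Fintype.card (Om' p C.Node t)) ≤
      2 * (univ.filter fun o : Om' p C.Node t => ∀ i, P o i y = C.val i (tb y)).card := by
    intro y hy
    have h1 := hP2 y (hS y hy).2
    have h2 : Nat.card {o // ∃ i, P o i y ≠ C.val i (tb y)} =
        (univ.filter fun o : Om' p C.Node t => ∃ i, P o i y ≠ C.val i (tb y)).card := by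
      rw [Nat.card_eq_fintype_card, Fintype.card_subtype]
    rw [h2, Nat.card_eq_fintype_card] at h1
    have h3 : (univ.filter fun o : Om' p C.Node t => ∀ i, P o i y = C.val i (tb y)).card +
        (univ.filter fun o : Om' p C.Node t => ∃ i, P o i y ≠ C.val i (tb y)).card =
        Fintype.card (Om' p C.Node t) := by
      rw [← Finset.card_univ, ← Finset.card_filter_add_card_filter_not
        (s := (univ : Finset (Om' p C.Node t))) (fun o => ∀ i, P o i y = C.val i (tb y))]
      congr 2
      ext o
      simp
    have h4 : (univ.filter fun o : Om' p C.Node t => ∃ i, P o i y ≠ C.val i (tb y)).card * (2 * s) ≤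
        Fintype.card (Om' p C.Node t) * s := by
      calc _ ≤ (univ.filter fun o : Om' p C.Node t => ∃ i, P o i y ≠ C.val i (tb y)).card * 2 ^ t :=
            Nat.mul_le_mul_left _ h2t
        _ ≤ C.andOr.card * Fintype.card (Om' p C.Node t) := h1
        _ ≤ s * Fintype.card (Om' p C.Node t) := Nat.mul_le_mul_right _ hs
        _ = _ := mul_comm _ _
    rcases Nat.eq_zero_or_pos s with h0 | h0
    · have h5 : C.andOr.card = 0 := by omega
      rw [h5, zero_mul] at h1
      have h6 : (univ.filter fun o : Om' p C.Node t => ∃ i, P o i y ≠ C.val i (tb y)).card = 0 := by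
        have h7 : 0 < 2 ^ t := by positivity
        rcases Nat.eq_zero_or_pos
          (univ.filter fun o : Om' p C.Node t => ∃ i, P o i y ≠ C.val i (tb y)).card with h8 | h8
        · exact h8
        · have := Nat.mul_pos h8 h7
          omega
      omega
    · have h5 : (univ.filter fun o : Om' p C.Node t => ∃ i, P o i y ≠ C.val i (tb y)).card * 2 ≤
          Fintype.card (Om' p C.Node t) := by
        refine Nat.le_of_mul_le_mul_right ?_ h0
        calc _ = (univ.filter fun o : Om' p C.Node t => ∃ i, P o i y ≠ C.val i (tb y)).card *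
              (2 * s) := by ring
          _ ≤ _ := h4
      omega
  have hdc : ∑ o : Om' p C.Node t, (S.filter fun y => ∀ i, P o i y = C.val i (tb y)).card =
      ∑ y ∈ S, (univ.filter fun o : Om' p C.Node t => ∀ i, P o i y = C.val i (tb y)).card := by
    simp only [Finset.card_filter]
    exact Finset.sum_comm
  have hsum : (S.card * Fintype.card (Om' p C.Node t) : ℝ) ≤
      2 * (Fintype.card (Om' p C.Node t) * B) := by
    have h1 : S.card * Fintype.card (Om' p C.Node t) ≤
        2 * ∑ o : Om' p C.Node t, (S.filter fun y => ∀ i, P o i y = C.val i (tb y)).card := by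
      rw [hdc, Finset.mul_sum, ← smul_eq_mul, ← Finset.sum_const]
      exact Finset.sum_le_sum hgood
    have h2 : ((∑ o : Om' p C.Node t, (S.filter fun y => ∀ i, P o i y = C.val i (tb y)).card : ℕ) : ℝ) ≤
        Fintype.card (Om' p C.Node t) * B := by
      push_cast
      calc _ ≤ ∑ _o : Om' p C.Node t, B := Finset.sum_le_sum fun o _ => hG o
        _ = _ := by rw [Finset.sum_const, Finset.card_univ, nsmul_eq_mul]
    have h3 : ((S.card * Fintype.card (Om' p C.Node t) : ℕ) : ℝ) ≤
        ((2 * ∑ o : Om' p C.Node t, (S.filter fun y => ∀ i, P o i y = C.val i (tb y)).card : ℕ) : ℝ) := by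
      exact_mod_cast h1
    rw [Nat.cast_mul, Nat.cast_mul] at h3
    push_cast at h3 h2 ⊢
    linarith
  have hcard : (0 : ℝ) < Fintype.card (Om' p C.Node t) := by
    exact_mod_cast Fintype.card_pos
  have h7 : (S.card : ℝ) ≤ 2 * B := by
    refine le_of_mul_le_mul_right ?_ hcard
    linarith
  calc (S.card : ℝ) ≤ 2 * B := h7
    _ = _ := by rw [hB]; ring

/-- The number of inputs on which a circuit inverts the multiplication by `m`. -/
theorem hard {q m w n d s t b : ℕ} (hq : q.Prime) (hqp : q ≠ p) (hqm : q ∣ m) (hm : Odd m)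
    (hmb : m < 2 ^ b) (C : Circuit p w n) (out : Fin n → C.Node) (hd : ∀ v, C.depth v ≤ d)
    (hs : C.andOr.card ≤ s) (ht : C.leak.card ≤ t) :
    (Nat.card {x : Fin n → Bool //
        times m (fun i => C.val (out i) (times m x)) = times m x} : ℝ) ≤
      6 * 2 ^ t * 2 ^ n * Real.exp (-(n / (2 * 10 ^ 6 *
        (b * (((p - 1) * (Nat.clog 2 s + 1) + w) ^ d : ℕ)) ^ 2))) := by
  classical
  have := C.finite
  let _ : Fintype C.Node := Fintype.ofFinite _
  set B : ℝ := 6 * 2 ^ n * Real.exp (-(n / (2 * 10 ^ 6 *
        (b * (((p - 1) * (Nat.clog 2 s + 1) + w) ^ d : ℕ)) ^ 2))) with hB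
  have hB0 : 0 ≤ B := by positivity
  set S : Finset (V n) := univ.filter fun y =>
    times m (fun i => C.val (out i) (tb y)) = tb y with hS
  have h1 : Nat.card {x : Fin n → Bool //
        times m (fun i => C.val (out i) (times m x)) = times m x} = S.card := by
    rw [hS, ← Fintype.card_subtype, ← Nat.card_eq_fintype_card]
    refine Nat.card_congr ?_
    refine (Equiv.subtypeEquiv ((Equiv.ofBijective _ (times_bijective hm n)).trans
      (tbEquiv n).symm) fun x => ?_)
    have : tb ((tbEquiv n).symm (times m x)) = times m x := (tbEquiv n).apply_symm_apply _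
    simp only [Equiv.trans_apply, Equiv.ofBijective_apply, this]
  rw [h1]
  let pat : V n → (C.leak → Bool) := fun y v => C.val v (tb y)
  have h2 : S.card = ∑ β : C.leak → Bool, (S.filter fun y => pat y = β).card :=
    Finset.card_eq_sum_card_fiberwise fun _ _ => Finset.mem_univ _
  have h3 : ∀ β : C.leak → Bool, ((S.filter fun y => pat y = β).card : ℝ) ≤ B := by
    intro β
    refine leak_bound hq hqp hqm hm hmb C out hd hs
      (fun v => if h : v ∈ C.leak then β ⟨v, h⟩ else false) _ fun y hy => ?_
    obtain ⟨hy1, hy2⟩ := Finset.mem_filter.1 hy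
    refine ⟨(Finset.mem_filter.1 hy1).2, fun v hv => ?_⟩
    rw [dif_pos hv, ← hy2]
  have h4 : Fintype.card (C.leak → Bool) = 2 ^ C.leak.card := by
    rw [Fintype.card_fun, Fintype.card_bool, Fintype.card_coe]
  rw [h2]
  push_cast
  calc ∑ β : C.leak → Bool, ((S.filter fun y => pat y = β).card : ℝ)
      ≤ ∑ _β : C.leak → Bool, B := Finset.sum_le_sum fun β _ => h3 β
    _ = 2 ^ C.leak.card * B := by
        rw [Finset.sum_const, Finset.card_univ, h4, nsmul_eq_mul]; push_cast; rfl
    _ ≤ 2 ^ t * B := mul_le_mul_of_nonneg_right (pow_le_pow_right₀ (by norm_num) ht) hB0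
    _ = _ := by rw [hB]; push_cast; ring

end Pool.Agent.Y603.MP
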