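import Pool.Agent.Y603.MP.Carry

/-!
The choice of the parameters.
-/

set_option autoImplicit false

namespace Pool.Agent.Y603.MP

open Finset Pool.Agent.W856.Corner

lemma exp_sixtieth : Real.exp (1 / 60) ≤ 3 / 2 := by
  have h2 := Real.exp_one_lt_d9
  have h3 : Real.exp (1 / 60) ^ 60 = Real.exp 1 := by
    rw [← Real.exp_nat_mul]; norm_num
  by_contra hcon
  push Not at hcon
  have h4 : (3 / 2 : ℝ) ^ 60 < Real.exp (1 / 60) ^ 60 :=
    pow_lt_pow_left₀ hcon (by norm_num) (by norm_num)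
  rw [h3] at h4
  norm_num at h4
  linarith

lemma exp_aux (n u : ℝ) (hn : 0 ≤ n) (hu : 1 ≤ u) (z : ℝ) (hz : z ≤ 1 / 60 - n / (1843200 * u ^ 2)) :
    Real.exp z ≤ 3 / 2 * Real.exp (-(n / (2 * 10 ^ 6 * u ^ 2))) := by
  have h5 : n / (2 * 10 ^ 6 * u ^ 2) ≤ n / (1843200 * u ^ 2) := by
    apply div_le_div_of_nonneg_left hn (by positivity)
    nlinarith [sq_nonneg u]
  calc Real.exp z ≤ Real.exp (1 / 60 + -(n / (2 * 10 ^ 6 * u ^ 2))) :=
        Real.exp_le_exp.2 (by linarith)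
    _ = Real.exp (1 / 60) * Real.exp (-(n / (2 * 10 ^ 6 * u ^ 2))) := Real.exp_add _ _
    _ ≤ _ := mul_le_mul_of_nonneg_right exp_sixtieth (Real.exp_pos _).le

lemma first_aux (n u r : ℝ) (hu : 1 ≤ u) (hr : r ≤ n / 2 - n / (1536 * u)) :
    1 / (60 * (4 * u)) * (r - n / 2) + (1 / (60 * (4 * u))) ^ 2 * n / 8 ≤
      1 / 60 - n / (1843200 * u ^ 2) := by
  have hu0 : 0 < u := by linarith
  have h0 : 0 < 1 / (60 * (4 * u)) := by positivity
  have h1 : 1 / (60 * (4 * u)) * (r - n / 2) ≤ 1 / (60 * (4 * u)) * (- (n / (1536 * u))) :=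
    mul_le_mul_of_nonneg_left (by linarith) h0.le
  have h2 : 1 / (60 * (4 * u)) * (- (n / (1536 * u))) + (1 / (60 * (4 * u))) ^ 2 * n / 8 =
      - (n / (1843200 * u ^ 2)) := by
    field_simp
    ring
  linarith

lemma second_aux (n u r k : ℝ) (hu : 1 ≤ u) (hr : n / 2 - n / (1536 * u) < r + 1) (hk0 : 0 ≤ k)
    (hk : n / (2048 * u ^ 2) ≤ k) :
    1 / (60 * (4 * u)) * (n / 2 - r) - k / 90 + (1 / (60 * (4 * u))) ^ 2 *
      (n - k * (1024 * u ^ 2)) / 8 ≤ 1 / 60 - n / (1843200 * u ^ 2) := by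
  have hu0 : 0 < u := by linarith
  have h0 : 0 < 1 / (60 * (4 * u)) := by positivity
  have h3 : 1 / (60 * (4 * u)) ≤ 1 / 60 := by
    apply one_div_le_one_div_of_le (by norm_num)
    linarith
  have h1 : 1 / (60 * (4 * u)) * (n / 2 - r) ≤ 1 / (60 * (4 * u)) * (n / (1536 * u) + 1) :=
    mul_le_mul_of_nonneg_left (by linarith) h0.le
  have h4 : (1 / (60 * (4 * u))) ^ 2 * (n - k * (1024 * u ^ 2)) / 8 ≤
      (1 / (60 * (4 * u))) ^ 2 * n / 8 := by
    have h5 : 0 ≤ k * (1024 * u ^ 2) := by positivity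
    have h6 : (1 / (60 * (4 * u))) ^ 2 * (n - k * (1024 * u ^ 2)) ≤
        (1 / (60 * (4 * u))) ^ 2 * n := mul_le_mul_of_nonneg_left (by linarith) (by positivity)
    linarith
  have h2 : 1 / (60 * (4 * u)) * (n / (1536 * u)) - n / (2048 * u ^ 2) / 90 +
      (1 / (60 * (4 * u))) ^ 2 * n / 8 = - (n / (1843200 * u ^ 2)) := by
    field_simp
    ring
  linarith

variable {n : ℕ} {K : Type} [Field K]

lemma card_le_cube (G : Finset (V n)) : (G.card : ℝ) ≤ 2 ^ n := by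
  have h := Finset.card_le_univ G
  have h2 : Fintype.card (V n) = 2 ^ n := by
    unfold V
    rw [Fintype.card_fun, ZMod.card, Fintype.card_fin]
  rw [h2] at h
  exact_mod_cast h

theorem low_degree_bound' {D b m q : ℕ} {ζ : K} (hζ : IsPrimitiveRoot ζ q) (hq : 2 < q)
    (hqo : Nat.Coprime q 2) (hqm : q ∣ m) (hm0 : 0 < m) (hmb : m < 2 ^ b)
    (X : Fin n → V n → Bool) (hX : ∀ i, LB K D (X i)) (G : Finset (V n))
    (hG : ∀ y ∈ G, (m * num (dg X y) n) % 2 ^ n = num (dig y) n) (hb : 1 ≤ b) (hD : 1 ≤ D) :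
    (G.card : ℝ) ≤ 3 * 2 ^ n * Real.exp (-(n / (2 * 10 ^ 6 * (b * D) ^ 2))) := by
  have hbD : (1 : ℝ) ≤ (b : ℝ) * D := by
    have h1 : (1 : ℝ) ≤ b := by exact_mod_cast hb
    have h2 : (1 : ℝ) ≤ D := by exact_mod_cast hD
    nlinarith
  obtain ⟨u, hu⟩ : ∃ u : ℝ, u = (b : ℝ) * D := ⟨_, rfl⟩
  rw [← hu] at hbD ⊢
  have hu0 : 0 < u := by linarith
  obtain ⟨δ, hδ⟩ : ∃ δ : ℕ, δ = 4 * (b * D) := ⟨_, rfl⟩
  obtain ⟨L, hL⟩ : ∃ L : ℕ, L = 64 * δ ^ 2 := ⟨_, rfl⟩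
  have hbD' : 1 ≤ b * D := Nat.one_le_iff_ne_zero.2 (by positivity)
  have hδ1 : 1 ≤ δ := by omega
  have hδr : (δ : ℝ) = 4 * u := by rw [hδ, hu]; push_cast; ring
  have hLr : (L : ℝ) = 1024 * u ^ 2 := by rw [hL]; push_cast; rw [hδr]; ring
  have h2n : (0 : ℝ) < 2 ^ n := by positivity
  rcases lt_or_ge n (4 * L) with hn | hn
  · have hn' : (n : ℝ) ≤ 4 * (1024 * u ^ 2) := by
      rw [← hLr]; exact_mod_cast hn.le
    have h1 : (n : ℝ) / (2 * 10 ^ 6 * u ^ 2) ≤ 1 / 100 := by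
      rw [div_le_iff₀ (by positivity)]
      nlinarith
    have h2 := Real.add_one_le_exp (-((n : ℝ) / (2 * 10 ^ 6 * u ^ 2)))
    have h3 := card_le_cube G
    nlinarith
  · have hL0 : 0 < L := by rw [hL]; positivity
    have hbL : b ≤ L := by
      have h1 : b ≤ b * D := Nat.le_mul_of_pos_right _ (by omega)
      have h2 : δ ≤ δ ^ 2 := Nat.le_self_pow (by norm_num) _
      omega
    obtain ⟨k, hk⟩ : ∃ k : ℕ, k = (n - b) / L := ⟨_, rfl⟩
    have hk1 : k * L + b ≤ n := by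
      have := Nat.div_mul_le_self (n - b) L
      rw [← hk] at this
      omega
    have hk2 : n ≤ 2 * (k * L) := by
      have h1 := Nat.lt_div_mul_add (a := n - b) hL0
      rw [← hk] at h1
      omega
    have hkL : (n : ℝ) ≤ 2 * (k * (1024 * u ^ 2)) := by
      rw [← hLr]; exact_mod_cast hk2
    have hkL' : (n : ℝ) / (2048 * u ^ 2) ≤ k := by
      rw [div_le_iff₀ (by positivity)]
      linarith
    have hn0 : (0 : ℝ) ≤ n := Nat.cast_nonneg n
    have he1 : 0 ≤ (n : ℝ) / 2 - n / (1536 * u) := by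
      have : (n : ℝ) / (1536 * u) ≤ n / 2 := by
        apply div_le_div_of_nonneg_left hn0 (by norm_num)
        linarith
      linarith
    obtain ⟨r, hr⟩ : ∃ r : ℕ, r = ⌊(n : ℝ) / 2 - n / (1536 * u)⌋₊ := ⟨_, rfl⟩
    have hr1 : (r : ℝ) ≤ n / 2 - n / (1536 * u) := by rw [hr]; exact Nat.floor_le he1
    have hr2 : (n : ℝ) / 2 - n / (1536 * u) < r + 1 := by rw [hr]; exact Nat.lt_floor_add_one _
    have hmain := low_degree_bound hζ hq hqo hqm hm0 hmb X hX G hG δ k L (by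
      rw [hδ]
      have h1 : b ≤ b * D := Nat.le_mul_of_pos_right _ (by omega)
      omega) hL hk1 r hδ1
    rw [hδr, hLr] at hmain
    have h6 := exp_aux n u hn0 hbD _ (first_aux n u r hbD hr1)
    have h7 := exp_aux n u hn0 hbD _ (second_aux n u r k hbD hr2 (Nat.cast_nonneg _) hkL')
    calc (G.card : ℝ) ≤ _ := hmain
      _ ≤ 2 ^ n * (3 / 2 * Real.exp (-(n / (2 * 10 ^ 6 * u ^ 2)))) +
          2 ^ n * (3 / 2 * Real.exp (-(n / (2 * 10 ^ 6 * u ^ 2)))) :=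
          add_le_add (mul_le_mul_of_nonneg_left h6 h2n.le) (mul_le_mul_of_nonneg_left h7 h2n.le)
      _ = _ := by ring

end Pool.Agent.Y603.MP
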